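import Mathlib
import Pool.Agent.Lib.MP_89bcae_ag.Tow.M11

open NumberField Polynomial

namespace Pool.Agent.Lib.MP_89bcae_ag.Re

/-- A number field over which the `ℓ`-th powers of the elements of `T` are seen through the symbol of
`U`. Proof: choose for each nonzero `z ∈ T` an element `x_z ∈ F` with `x_z ^ ℓ = z`; let `x₀` be that of
`z₀` and for `z ∈ T` let `j_z` be the natural number below `ℓ` with
`kap z = j_z * kap z₀` (`ZMod ℓ` is a field); put `w_z = x_z / x₀ ^ j_z`. By `Sup.kap_spec`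
`U x_z = ζ ^ kap(z) x_z`, `U x₀ = ζ ^ kap(z₀) x₀`, so `U w_z = w_z`. Let `E` be the field generated by
the `w_z` over `K`: it is finite over `K` (finitely many algebraic elements) and all its elements are
fixed by `U` (`IntermediateField.adjoin_induction`, or: it is contained in the fixed field). If `y ∈ E`
and `y ^ ℓ = z₀`, then `U y = y`, but `kap_spec` says `U y = ζ ^ kap(z₀) y` with `kap z₀ ≠ 0`, `y ≠ 0`. -/
theorem exists_field {ℓ : ℕ} (hℓ : ℓ.Prime) (K F : Type) [Field K] [NumberField K] [Field F]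
    [Algebra K F] [IsAlgClosure K F] {ζ : K} (hζ : IsPrimitiveRoot ζ ℓ) (U : F ≃ₐ[K] F)
    (T : Finset K) {z₀ : K} (hz₀ : z₀ ≠ 0)
    (hk₀ : Sup.kap ℓ (algebraMap K F ζ) U (algebraMap K F z₀) ≠ 0) :
    ∃ E : IntermediateField K F, FiniteDimensional K E ∧
      (∀ z ∈ T, z ≠ 0 → ∃ (w : E) (j : ℕ), w ≠ 0 ∧
        w ^ ℓ * (algebraMap K E z₀) ^ j = algebraMap K E z ∧
        Sup.kap ℓ (algebraMap K F ζ) U (algebraMap K F z) =
          j * Sup.kap ℓ (algebraMap K F ζ) U (algebraMap K F z₀)) ∧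
      ∀ y : E, y ^ ℓ ≠ algebraMap K E z₀ := by
  classical
  have : Fact ℓ.Prime := ⟨hℓ⟩
  have : NeZero ℓ := ⟨hℓ.ne_zero⟩
  have : IsAlgClosed F := IsAlgClosure.isAlgClosed K
  have halg : Algebra.IsAlgebraic K F := IsAlgClosure.isAlgebraic
  have hζF : IsPrimitiveRoot (algebraMap K F ζ) ℓ :=
    hζ.map_of_injective (algebraMap K F).injective
  have hUζ : U (algebraMap K F ζ) = algebraMap K F ζ := U.commutes ζ
  have hne : ∀ z : K, z ≠ 0 → algebraMap K F z ≠ 0 := fun z hz =>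
    (map_ne_zero_iff _ (algebraMap K F).injective).mpr hz
  have hspec : ∀ (z : K) (x : F), z ≠ 0 → x ^ ℓ = algebraMap K F z →
      U x = algebraMap K F ζ ^ (Sup.kap ℓ (algebraMap K F ζ) U (algebraMap K F z)).val * x :=
    fun z x hz hx => Sup.kap_spec (U : F ≃+* F) hℓ hζF hUζ (hne z hz) (U.commutes z) hx
  choose x hx using fun z : K => IsAlgClosed.exists_pow_nat_eq (algebraMap K F z) hℓ.pos
  have hx0 : ∀ z : K, z ≠ 0 → x z ≠ 0 := by
    intro z hz h
    apply hne z hz
    rw [← hx z, h, zero_pow hℓ.ne_zero]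
  set κ : K → ZMod ℓ := fun z => Sup.kap ℓ (algebraMap K F ζ) U (algebraMap K F z) with hκ
  set j : K → ℕ := fun z => (κ z / κ z₀).val with hj
  have hjκ : ∀ z : K, κ z = (j z : ZMod ℓ) * κ z₀ := by
    intro z
    have h1 : ((j z : ℕ) : ZMod ℓ) = κ z / κ z₀ := ZMod.natCast_zmod_val _
    rw [h1]
    exact (div_mul_cancel₀ _ hk₀).symm
  set w : K → F := fun z => x z / x z₀ ^ j z with hw
  have hw0 : ∀ z : K, z ≠ 0 → w z ≠ 0 := fun z hz =>
    div_ne_zero (hx0 z hz) (pow_ne_zero _ (hx0 z₀ hz₀))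
  have hwℓ : ∀ z : K, w z ^ ℓ * (algebraMap K F z₀) ^ j z = algebraMap K F z := by
    intro z
    have h1 : w z ^ ℓ = algebraMap K F z / (algebraMap K F z₀) ^ j z := by
      rw [hw]
      simp only
      rw [div_pow, hx z, ← pow_mul, mul_comm (j z) ℓ, pow_mul, hx z₀]
    rw [h1]
    exact div_mul_cancel₀ _ (pow_ne_zero _ (hne z₀ hz₀))
  have hpow : ∀ z : K, algebraMap K F ζ ^ (κ z).val = algebraMap K F ζ ^ ((κ z₀).val * j z) := by
    intro z
    have h1 : (κ z).val ≡ (κ z₀).val * j z [MOD ℓ] := by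
      rw [← ZMod.natCast_eq_natCast_iff]
      rw [Nat.cast_mul, ZMod.natCast_zmod_val, ZMod.natCast_zmod_val, hjκ z, mul_comm]
    have h2 : (κ z).val % orderOf (algebraMap K F ζ) =
        ((κ z₀).val * j z) % orderOf (algebraMap K F ζ) := by
      rw [← hζF.eq_orderOf]
      exact h1
    rw [← pow_mod_orderOf, h2, pow_mod_orderOf]
  have hUw : ∀ z : K, z ≠ 0 → U (w z) = w z := by
    intro z hz
    have h1 : U (x z) = algebraMap K F ζ ^ (κ z).val * x z := hspec z (x z) hz (hx z)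
    have h2 : U (x z₀) = algebraMap K F ζ ^ (κ z₀).val * x z₀ := hspec z₀ (x z₀) hz₀ (hx z₀)
    have h3 : algebraMap K F ζ ^ ((κ z₀).val * j z) ≠ 0 :=
      pow_ne_zero _ (hζF.ne_zero hℓ.ne_zero)
    have h4 : U (w z) = U (x z) / U (x z₀) ^ j z := by
      rw [hw]
      simp only
      rw [map_div₀, map_pow]
    rw [h4, h1, h2, hpow z, mul_pow, ← pow_mul]
    exact mul_div_mul_left _ _ h3
  set S : Set F := w '' {z : K | z ∈ T ∧ z ≠ 0} with hS
  have hSfin : S.Finite := by
    apply Set.Finite.image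
    exact T.finite_toSet.subset fun z hz => hz.1
  have : Finite S := hSfin
  have hmem : ∀ z ∈ T, z ≠ 0 → w z ∈ IntermediateField.adjoin K S := fun z hz hz0 =>
    IntermediateField.subset_adjoin K S ⟨z, ⟨hz, hz0⟩, rfl⟩
  have hfix : ∀ y ∈ IntermediateField.adjoin K S, U y = y := by
    intro y hy
    induction hy using IntermediateField.adjoin_induction with
    | mem y hy =>
      obtain ⟨z, hz, rfl⟩ := hy
      exact hUw z hz.2
    | algebraMap a => exact U.commutes a
    | add a b _ _ ha hb => rw [map_add, ha, hb]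
    | inv a _ ha => rw [map_inv₀, ha]
    | mul a b _ _ ha hb => rw [map_mul, ha, hb]
  refine ⟨IntermediateField.adjoin K S,
    IntermediateField.finiteDimensional_adjoin fun y _ => (halg.isAlgebraic y).isIntegral, ?_, ?_⟩
  · intro z hz hz0
    refine ⟨⟨w z, hmem z hz hz0⟩, j z, ?_, ?_, hjκ z⟩
    · intro h
      exact hw0 z hz0 (congrArg Subtype.val h)
    · apply Subtype.ext
      exact hwℓ z
  · intro y hy
    have h1 : (y : F) ^ ℓ = algebraMap K F z₀ := congrArg Subtype.val hy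
    have h2 := hspec z₀ y hz₀ h1
    rw [hfix y y.2] at h2
    have hy0 : (y : F) ≠ 0 := by
      intro h
      apply hne z₀ hz₀
      rw [← h1, h, zero_pow hℓ.ne_zero]
    have h3 : algebraMap K F ζ ^ (κ z₀).val = 1 := by
      have h4 : (1 : F) * y = algebraMap K F ζ ^ (κ z₀).val * y := by
        rw [one_mul]
        exact h2
      exact (mul_right_cancel₀ hy0 h4).symm
    have h5 : ℓ ∣ (κ z₀).val := (hζF.pow_eq_one_iff_dvd _).mp h3
    have h6 : (κ z₀).val = 0 := Nat.eq_zero_of_dvd_of_lt h5 (ZMod.val_lt _)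
    exact hk₀ ((ZMod.val_eq_zero _).mp h6)

end Pool.Agent.Lib.MP_89bcae_ag.Re
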