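import Mathlib

/-!
# The number of ideals of given norm
-/

open NumberField Ideal

namespace Pool.Agent.Lib.MP_89bcae_ag.Re

/-- The number of ideals of norm `n` of the ring of integers of `K`. -/
noncomputable def idealCount (K : Type*) [Field K] [NumberField K] (n : ℕ) : ℕ :=
  Nat.card {I : Ideal (𝓞 K) // absNorm I = n}

/-- The Dirichlet series of `K` for real `s`. -/
noncomputable def zetaR (K : Type*) [Field K] [NumberField K] (s : ℝ) : ℝ :=
  ∑' n : ℕ, (idealCount K n : ℝ) * (n : ℝ) ^ (-s)

end Pool.Agent.Lib.MP_89bcae_ag.Re
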