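import Mathlib
import Pool.Agent.Lib.MP_89bcae_ag.Re.N01

open NumberField Ideal

namespace Pool.Agent.Lib.MP_89bcae_ag.Re

/-- Proof: `absNorm I = 1` iff `I = ⊤` (`Ideal.absNorm_eq_one_iff`). -/
theorem idealCount_one (K : Type*) [Field K] [NumberField K] : idealCount K 1 = 1 := by
  unfold idealCount
  have : Unique {I : Ideal (𝓞 K) // absNorm I = 1} :=
    { default := ⟨⊤, absNorm_eq_one_iff.2 rfl⟩
      uniq := fun I => Subtype.ext (absNorm_eq_one_iff.1 I.2) }
  exact Nat.card_unique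

private theorem n02_sup (K : Type*) [Field K] [NumberField K] {m n : ℕ} (h : m.Coprime n)
    (J J' : Ideal (𝓞 K)) (hm : (m : 𝓞 K) ∈ J) (hn : (n : 𝓞 K) ∈ J') : J ⊔ J' = ⊤ := by
  rw [eq_top_iff_one]
  have h1 : IsCoprime (m : ℤ) (n : ℤ) := Nat.isCoprime_iff_coprime.2 h
  obtain ⟨a, b, hab⟩ := h1
  have h2 : (1 : 𝓞 K) = (a : 𝓞 K) * (m : 𝓞 K) + (b : 𝓞 K) * (n : 𝓞 K) := by
    have h3 := congrArg (Int.cast : ℤ → 𝓞 K) hab
    push_cast at h3
    exact h3.symm
  rw [h2]
  exact Submodule.add_mem_sup (J.mul_mem_left _ hm) (J'.mul_mem_left _ hn)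

private theorem n02_inj (K : Type*) [Field K] [NumberField K] {m n : ℕ} (h : m.Coprime n)
    (J J' : Ideal (𝓞 K)) (hm : absNorm J = m) (hn : absNorm J' = n) :
    J * J' ⊔ span {(m : 𝓞 K)} = J := by
  have hmJ : (m : 𝓞 K) ∈ J := by rw [← hm]; exact absNorm_mem J
  have hnJ : (n : 𝓞 K) ∈ J' := by rw [← hn]; exact absNorm_mem J'
  have htop : span {(m : 𝓞 K)} ⊔ J' = ⊤ :=
    n02_sup K h _ _ (mem_span_singleton_self _) hnJ
  apply le_antisymm
  · exact sup_le mul_le_left ((span_singleton_le_iff_mem _).2 hmJ)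
  · calc J = J * (span {(m : 𝓞 K)} ⊔ J') := by rw [htop, mul_top]
      _ = J * span {(m : 𝓞 K)} ⊔ J * J' := mul_sup _ _ _
      _ ≤ J * J' ⊔ span {(m : 𝓞 K)} := sup_le (le_sup_of_le_right mul_le_right) le_sup_left

/-- Proof: the map `(J, J') ↦ J * J'` from pairs of ideals of norms `m`, `n` to ideals of norm `m n`
(`map_mul` of `absNorm`) is a bijection. Surjective: `I` of norm `m n`; `m n ∈ I`
(`Ideal.absNorm_mem`); put `J = I ⊔ span {m}`, `J' = I ⊔ span {n}`; as `m`, `n` are coprime,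
`J ⊔ J' = ⊤`, and `J * J' ≤ I` (all four products lie in `I`), `I ≤ J ⊓ J' = J * J'`
(`Ideal.mul_eq_inf_of_coprime`). `J` contains `m`, so it divides `span {m}` and `absNorm J` divides
`m ^ [K:ℚ]`; so it is prime to `n` and divides `m`; the same for `J'`; as the product is `m n`, both
are equalities (treat `m = 0` or `n = 0` apart: then the other one is `1`). Injective:
`J = J * J' ⊔ span {m}` if `absNorm J = m`, `absNorm J' = n`, because `J' ⊔ span {m} = ⊤`
(it contains `n` and `m`) and `m ∈ J`. -/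
theorem idealCount_mul (K : Type*) [Field K] [NumberField K] {m n : ℕ} (h : m.Coprime n) :
    idealCount K (m * n) = idealCount K m * idealCount K n := by
  rcases Nat.eq_zero_or_pos m with rfl | hm0
  · have : n = 1 := by simpa using h
    rw [this, mul_one, idealCount_one, mul_one]
  rcases Nat.eq_zero_or_pos n with rfl | hn0
  · have : m = 1 := by simpa using h
    rw [this, one_mul, idealCount_one, one_mul]
  unfold idealCount
  rw [← Nat.card_prod]
  symm
  refine Nat.card_congr (Equiv.ofBijective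
    (fun p : {I : Ideal (𝓞 K) // absNorm I = m} × {I : Ideal (𝓞 K) // absNorm I = n} =>
      (⟨p.1.1 * p.2.1, by rw [map_mul, p.1.2, p.2.2]⟩ : {I : Ideal (𝓞 K) // absNorm I = m * n}))
    ⟨?_, ?_⟩)
  · rintro ⟨⟨J, hJ⟩, ⟨J', hJ'⟩⟩ ⟨⟨I, hI⟩, ⟨I', hI'⟩⟩ e
    have e' : J * J' = I * I' := congrArg Subtype.val e
    have h1 : J = I := by
      rw [← n02_inj K h J J' hJ hJ', ← n02_inj K h I I' hI hI', e']
    have h2 : J' = I' := by
      rw [← n02_inj K h.symm J' J hJ' hJ, ← n02_inj K h.symm I' I hI' hI, mul_comm J' J,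
        mul_comm I' I, e']
    subst h1 h2
    rfl
  · rintro ⟨I, hI⟩
    have hmn : (m : 𝓞 K) * (n : 𝓞 K) ∈ I := by
      have := absNorm_mem I
      rw [hI, Nat.cast_mul] at this
      exact this
    have hmJ : (m : 𝓞 K) ∈ I ⊔ span {(m : 𝓞 K)} :=
      Ideal.mem_sup_right (mem_span_singleton_self _)
    have hnJ : (n : 𝓞 K) ∈ I ⊔ span {(n : 𝓞 K)} :=
      Ideal.mem_sup_right (mem_span_singleton_self _)
    have htop := n02_sup K h _ _ hmJ hnJ
    have hprod : (I ⊔ span {(m : 𝓞 K)}) * (I ⊔ span {(n : 𝓞 K)}) = I := by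
      apply le_antisymm
      · rw [Ideal.sup_mul, Ideal.mul_sup, Ideal.mul_sup]
        refine sup_le (sup_le mul_le_left mul_le_left) (sup_le mul_le_right ?_)
        rw [span_singleton_mul_span_singleton, span_singleton_le_iff_mem]
        exact hmn
      · rw [mul_eq_inf_of_coprime htop]
        exact le_inf le_sup_left le_sup_left
    have hnorm : absNorm (I ⊔ span {(m : 𝓞 K)}) * absNorm (I ⊔ span {(n : 𝓞 K)}) = m * n := by
      rw [← map_mul, hprod, hI]
    have hd1 : absNorm (I ⊔ span {(m : 𝓞 K)}) ∣ m := by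
      have h1 : absNorm (I ⊔ span {(m : 𝓞 K)}) ∣ m ^ Module.finrank ℤ (𝓞 K) := by
        rw [← absNorm_span_natCast]
        exact absNorm_dvd_absNorm_of_le le_sup_right
      have h2 : (absNorm (I ⊔ span {(m : 𝓞 K)})).Coprime n :=
        Nat.Coprime.coprime_dvd_left h1 (h.pow_left _)
      exact h2.dvd_of_dvd_mul_right (hnorm ▸ Dvd.intro _ rfl)
    have hd2 : absNorm (I ⊔ span {(n : 𝓞 K)}) ∣ n := by
      have h1 : absNorm (I ⊔ span {(n : 𝓞 K)}) ∣ n ^ Module.finrank ℤ (𝓞 K) := by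
        rw [← absNorm_span_natCast]
        exact absNorm_dvd_absNorm_of_le le_sup_right
      have h2 : (absNorm (I ⊔ span {(n : 𝓞 K)})).Coprime m :=
        Nat.Coprime.coprime_dvd_left h1 (h.symm.pow_left _)
      exact h2.dvd_of_dvd_mul_left (hnorm ▸ Dvd.intro_left _ rfl)
    have hl1 := Nat.le_of_dvd hm0 hd1
    have hl2 := Nat.le_of_dvd hn0 hd2
    have he1 : absNorm (I ⊔ span {(m : 𝓞 K)}) = m := by
      by_contra hne
      have h3 : absNorm (I ⊔ span {(m : 𝓞 K)}) < m := lt_of_le_of_ne hl1 hne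
      have h4 : absNorm (I ⊔ span {(m : 𝓞 K)}) * absNorm (I ⊔ span {(n : 𝓞 K)}) < m * n :=
        lt_of_le_of_lt (Nat.mul_le_mul_left _ hl2) (Nat.mul_lt_mul_of_pos_right h3 hn0)
      omega
    have he2 : absNorm (I ⊔ span {(n : 𝓞 K)}) = n := by
      rw [he1] at hnorm
      exact Nat.eq_of_mul_eq_mul_left hm0 hnorm
    exact ⟨(⟨_, he1⟩, ⟨_, he2⟩), Subtype.ext hprod⟩

end Pool.Agent.Lib.MP_89bcae_ag.Re
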