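import Mathlib
import Pool.Agent.Lib.MP_89bcae_ag.Re.N01

open NumberField Ideal

namespace Pool.Agent.Lib.MP_89bcae_ag.Re

/-- Proof: let `P` be the set of the maximal ideals of `𝓞 K` containing `q`; it is finite with at
most `[K:ℚ]` elements (`Ideal.primesOver`, `Ideal.sum_ramification_inertia`, or: the norm of their
product divides `q ^ [K:ℚ]` and each has norm at least `q`). If `absNorm I = q ^ e`, all the prime
divisors of `I` are in `P` (`q ^ e ∈ I`) and each occurs at most `e` times (its norm is at least `q`,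
as the norm is a power of `q` different from `1`). So `I` is determined by the function `P → Fin (e+1)`
of its multiplicities (`normalizedFactors`). -/
theorem idealCount_prime_pow_le (K : Type*) [Field K] [NumberField K] {q : ℕ} (hq : q.Prime)
    (e : ℕ) : idealCount K (q ^ e) ≤ (e + 1) ^ Module.finrank ℚ K := by
  classical
  have hq0 : (q : 𝓞 K) ≠ 0 := by
    have : (q : ℕ) ≠ 0 := hq.ne_zero
    exact_mod_cast this
  have hS0 : (span {(q : 𝓞 K)} : Ideal (𝓞 K)) ≠ ⊥ := by
    rw [Ne, span_singleton_eq_bot]; exact hq0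
  have hSn : absNorm (span {(q : 𝓞 K)} : Ideal (𝓞 K)) = q ^ Module.finrank ℚ K := by
    rw [absNorm_span_natCast, RingOfIntegers.rank]
  -- primes over q
  obtain ⟨P, hPdef⟩ : ∃ P : Finset (Ideal (𝓞 K)),
      P = (UniqueFactorizationMonoid.normalizedFactors (span {(q : 𝓞 K)} : Ideal (𝓞 K))).toFinset :=
    ⟨_, rfl⟩
  have hPmem : ∀ p : Ideal (𝓞 K), p ∈ P ↔ p.IsPrime ∧ span {(q : 𝓞 K)} ≤ p := by
    intro p
    rw [hPdef, Multiset.mem_toFinset, Ideal.mem_normalizedFactors_iff hS0]
  have hnorm : ∀ (p : Ideal (𝓞 K)) (k : ℕ), p.IsPrime → absNorm p ∣ q ^ k → q ≤ absNorm p := by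
    intro p k hp hd
    have h1 : absNorm p ≠ 1 := by
      rw [Ne, Ideal.absNorm_eq_one_iff]; exact hp.ne_top
    obtain ⟨j, -, hj⟩ := (Nat.dvd_prime_pow hq).1 hd
    rw [hj]
    have hj0 : j ≠ 0 := by
      rintro rfl
      rw [pow_zero] at hj
      exact h1 hj
    calc q = q ^ 1 := (pow_one q).symm
      _ ≤ q ^ j := Nat.pow_le_pow_right hq.pos (Nat.one_le_iff_ne_zero.2 hj0)
  have hPcard : P.card ≤ Module.finrank ℚ K := by
    have hprod : P.val.prod ∣ span {(q : 𝓞 K)} := by
      have h1 : P.val.prod ∣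
          (UniqueFactorizationMonoid.normalizedFactors (span {(q : 𝓞 K)} : Ideal (𝓞 K))).prod := by
        rw [hPdef, Multiset.toFinset_val]
        exact Multiset.prod_dvd_prod_of_le (Multiset.dedup_le _)
      rwa [Ideal.prod_normalizedFactors_eq_self hS0] at h1
    have hnd : absNorm P.val.prod ∣ q ^ Module.finrank ℚ K := by
      rw [← hSn]
      exact map_dvd absNorm hprod
    have hnp : absNorm P.val.prod = ∏ p ∈ P, absNorm p := by
      rw [map_multiset_prod]; rfl
    have hge : q ^ P.card ≤ ∏ p ∈ P, absNorm p := by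
      rw [← Finset.prod_const]
      apply Finset.prod_le_prod'
      intro p hp
      have hp' := (hPmem p).1 hp
      apply hnorm p (Module.finrank ℚ K) hp'.1
      rw [← hSn]
      exact Ideal.absNorm_dvd_absNorm_of_le hp'.2
    have hle : q ^ P.card ≤ q ^ Module.finrank ℚ K :=
      hge.trans (hnp ▸ Nat.le_of_dvd (pow_pos hq.pos _) hnd)
    exact (Nat.pow_le_pow_iff_right hq.one_lt).1 hle
  -- facts on ideals of norm q^e
  have hI0 : ∀ I : Ideal (𝓞 K), absNorm I = q ^ e → I ≠ ⊥ := by
    intro I hI h0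
    rw [h0, Ideal.absNorm_bot] at hI
    exact (pow_ne_zero e hq.ne_zero) hI.symm
  have hsupp : ∀ I : Ideal (𝓞 K), absNorm I = q ^ e →
      ∀ p ∈ UniqueFactorizationMonoid.normalizedFactors I, p ∈ P := by
    intro I hI p hp
    have hp' := (Ideal.mem_normalizedFactors_iff (hI0 I hI)).1 hp
    rw [hPmem]
    refine ⟨hp'.1, ?_⟩
    rw [Ideal.span_singleton_le_iff_mem]
    have h1 : ((q : 𝓞 K)) ^ e ∈ p := by
      have h2 := hp'.2 (Ideal.absNorm_mem I)
      rw [hI] at h2
      simpa using h2
    exact hp'.1.mem_of_pow_mem e h1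
  have hcount : ∀ I : Ideal (𝓞 K), absNorm I = q ^ e → ∀ p : Ideal (𝓞 K),
      (UniqueFactorizationMonoid.normalizedFactors I).count p < e + 1 := by
    intro I hI p
    by_cases hp : p ∈ UniqueFactorizationMonoid.normalizedFactors I
    · have hp' := (Ideal.mem_normalizedFactors_iff (hI0 I hI)).1 hp
      set c := (UniqueFactorizationMonoid.normalizedFactors I).count p with hc
      have h1 : p ^ c ∣ I := by
        have h2 : (Multiset.replicate c p).prod ∣
            (UniqueFactorizationMonoid.normalizedFactors I).prod :=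
          Multiset.prod_dvd_prod_of_le (Multiset.le_count_iff_replicate_le.1 le_rfl)
        rwa [Multiset.prod_replicate, Ideal.prod_normalizedFactors_eq_self (hI0 I hI)] at h2
      have h3 : absNorm p ^ c ∣ q ^ e := by
        rw [← hI, ← map_pow]
        exact map_dvd absNorm h1
      have h4 : q ≤ absNorm p := by
        apply hnorm p e hp'.1
        rw [← hI]
        exact Ideal.absNorm_dvd_absNorm_of_le hp'.2
      have h5 : q ^ c ≤ q ^ e :=
        (Nat.pow_le_pow_left h4 c).trans (Nat.le_of_dvd (pow_pos hq.pos _) h3)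
      have h6 := (Nat.pow_le_pow_iff_right hq.one_lt).1 h5
      omega
    · rw [Multiset.count_eq_zero_of_notMem hp]
      omega
  let F : {I : Ideal (𝓞 K) // absNorm I = q ^ e} → (P → Fin (e + 1)) :=
    fun I p => ⟨(UniqueFactorizationMonoid.normalizedFactors I.1).count p.1, hcount I.1 I.2 p.1⟩
  have hF : Function.Injective F := by
    intro I J hIJ
    apply Subtype.ext
    have h1 : UniqueFactorizationMonoid.normalizedFactors I.1 =
        UniqueFactorizationMonoid.normalizedFactors J.1 := by
      ext p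
      by_cases hp : p ∈ P
      · have h2 := congrFun hIJ ⟨p, hp⟩
        have h3 := congrArg Fin.val h2
        exact h3
      · rw [Multiset.count_eq_zero_of_notMem (fun h => hp (hsupp I.1 I.2 p h)),
          Multiset.count_eq_zero_of_notMem (fun h => hp (hsupp J.1 J.2 p h))]
    rw [← Ideal.prod_normalizedFactors_eq_self (hI0 I.1 I.2), h1,
      Ideal.prod_normalizedFactors_eq_self (hI0 J.1 J.2)]
  unfold idealCount
  calc Nat.card {I : Ideal (𝓞 K) // absNorm I = q ^ e} ≤ Nat.card (P → Fin (e + 1)) :=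
        Nat.card_le_card_of_injective F hF
    _ = (e + 1) ^ P.card := by simp
    _ ≤ (e + 1) ^ Module.finrank ℚ K := Nat.pow_le_pow_right (Nat.succ_pos e) hPcard

end Pool.Agent.Lib.MP_89bcae_ag.Re
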