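import Mathlib
import Pool.Agent.Lib.MP_89bcae_ag.Re.N01

open NumberField Ideal Filter Topology

namespace Pool.Agent.Lib.MP_89bcae_ag.Re

/-- The average number of ideals of given norm. -/
private theorem N04a_lim (K : Type*) [Field K] [NumberField K] :
    Tendsto (fun n : ℕ => (∑ k ∈ Finset.Icc 1 n, (idealCount K k : ℝ)) / n) atTop
      (𝓝 (dedekindZeta_residue K)) := by
  refine ((Ideal.tendsto_norm_le_div_atTop₀ K).comp tendsto_natCast_atTop_atTop).congr fun n ↦ ?_
  simp only [Function.comp_apply, Nat.cast_le, ← Nat.cast_sum, idealCount]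
  congr
  rw [← add_left_inj 1, ← card_norm_le_eq_card_norm_le_add_one,
    show Finset.Icc 1 n = Finset.Ioc 0 n from Finset.Icc_succ_left_eq_Ioc _ _,
    show 1 = Nat.card {I : Ideal (𝓞 K) // absNorm I = 0} by simp [Ideal.absNorm_eq_zero_iff],
    Finset.sum_Ioc_add_eq_sum_Icc (n.zero_le),
    ← Finset.card_preimage_eq_sum_card_image_eq (fun k _ ↦ finite_setOfPred_absNorm_eq k)]
  simp [Set.coe_eq_subtype]

private theorem N04a_bigO (K : Type*) [Field K] [NumberField K] :
    (fun n : ℕ => ∑ k ∈ Finset.Icc 1 n, (idealCount K k : ℝ)) =O[atTop] fun n : ℕ => (n : ℝ) ^ (1 : ℝ) := by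
  have h1 : (fun n : ℕ => ∑ k ∈ Finset.Icc 1 n, (idealCount K k : ℝ)) =O[atTop] fun n : ℕ => (n : ℝ) := by
    refine Asymptotics.isBigO_of_div_tendsto_nhds ?_ (dedekindZeta_residue K) (N04a_lim K)
    filter_upwards [eventually_gt_atTop 0] with n hn h
    exact absurd h (Nat.cast_ne_zero.2 hn.ne')
  simpa only [Real.rpow_one] using h1

/-- Proof: the partial sums of `idealCount K` are `O(n)`
(`NumberField.Ideal.tendsto_norm_le_div_atTop₀`; see the proof of
`NumberField.tendsto_sub_one_mul_dedekindZeta_nhdsGT` in Mathlib, file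
`NumberTheory/NumberField/DedekindZeta`), so the series converges for `s > 1`
(`LSeriesSummable_of_sum_norm_bigO` or a similar lemma of `NumberTheory/LSeries/SumCoeff`); pass to
real numbers with `LSeriesSummable`, `LSeries.norm_term_eq` and the like (the term at `n = 0` is
zero on both sides because `0 ^ (-s) = 0`). -/
theorem zetaR_summable (K : Type*) [Field K] [NumberField K] {s : ℝ} (hs : 1 < s) :
    Summable fun n : ℕ => (idealCount K n : ℝ) * (n : ℝ) ^ (-s) := by
  have h := LSeriesSummable_of_sum_norm_bigO_and_nonneg (s := (s : ℂ)) (N04a_bigO K)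
    (fun n => Nat.cast_nonneg _) zero_le_one (by rwa [Complex.ofReal_re])
  refine h.norm.congr fun n => ?_
  rw [LSeries.norm_term_eq, Complex.ofReal_re]
  split_ifs with hn
  · rw [hn, Nat.cast_zero, Real.zero_rpow (by linarith), mul_zero]
  · rw [Real.rpow_neg (Nat.cast_nonneg n), Complex.norm_real, Real.norm_of_nonneg (Nat.cast_nonneg _), div_eq_mul_inv]

private theorem zetaR_ofReal (K : Type*) [Field K] [NumberField K] {s : ℝ} (hs : s ≠ 0) :
    dedekindZeta K s = ((zetaR K s : ℝ) : ℂ) := by
  unfold dedekindZeta LSeries zetaR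
  rw [Complex.ofReal_tsum]
  refine tsum_congr fun n => ?_
  rcases Nat.eq_zero_or_pos n with hn | hn
  · subst hn
    rw [LSeries.term_zero, Nat.cast_zero, Real.zero_rpow (neg_ne_zero.2 hs), mul_zero, Complex.ofReal_zero]
  · rw [LSeries.term_of_ne_zero hn.ne', Complex.ofReal_mul, Complex.ofReal_natCast,
      Complex.ofReal_cpow (Nat.cast_nonneg n), Complex.ofReal_natCast, Complex.ofReal_neg, Complex.cpow_neg, div_eq_mul_inv]
    rfl

/-- Proof: for real `s` the number `dedekindZeta K s` is the real number `zetaR K s` (for all `s`, the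
terms agree: `LSeries.term`, `Complex.ofReal_cpow`, the term at `n = 0` is zero on both sides for
`s ≠ 0`, `Complex.ofReal_tsum`), and `tendsto_sub_one_mul_dedekindZeta_nhdsGT`. -/
theorem zetaR_tendsto (K : Type*) [Field K] [NumberField K] :
    Tendsto (fun s : ℝ => (s - 1) * zetaR K s) (𝓝[>] 1) (𝓝 (dedekindZeta_residue K)) := by
  have h := tendsto_sub_one_mul_dedekindZeta_nhdsGT K
  have h2 := (Complex.continuous_re.tendsto _).comp h
  rw [Complex.ofReal_re] at h2
  refine h2.congr' ?_
  filter_upwards [self_mem_nhdsWithin] with s hs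
  have hs1 : (1 : ℝ) < s := hs
  have hs0 : s ≠ 0 := by
    intro h0
    rw [h0] at hs1
    exact absurd hs1 (by norm_num)
  rw [Function.comp_apply, zetaR_ofReal K hs0]
  have h3 : ((s : ℂ) - 1) * ((zetaR K s : ℝ) : ℂ) = (((s - 1) * zetaR K s : ℝ) : ℂ) := by
    rw [Complex.ofReal_mul, Complex.ofReal_sub, Complex.ofReal_one]
  rw [h3, Complex.ofReal_re]

end Pool.Agent.Lib.MP_89bcae_ag.Re
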