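import Mathlib

open Filter Topology

namespace Pool.Agent.Lib.MP_89bcae_ag.Re

/-- Elementary: `x ↦ log (1 + x) - x + x ^ 2` is nonnegative for `x ≥ 0` (for instance from
`Real.add_one_le_exp` applied to `-x/(1+x)`, or by cases `x ≤ 1`: `1 + x ≥ exp (x - x ^ 2)`). -/
theorem exp_le_one_add_mul_exp_sq {x : ℝ} (hx : 0 ≤ x) :
    Real.exp x ≤ (1 + x) * Real.exp (x ^ 2) := by
  have h1 : x ^ 2 - x + 1 ≤ Real.exp (x ^ 2 - x) := Real.add_one_le_exp _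
  have h2 : 1 ≤ (1 + x) * Real.exp (x ^ 2 - x) := by
    have h3 : (1 + x) * (x ^ 2 - x + 1) = 1 + x ^ 3 := by ring
    have h4 : (1 + x) * (x ^ 2 - x + 1) ≤ (1 + x) * Real.exp (x ^ 2 - x) :=
      mul_le_mul_of_nonneg_left h1 (by linarith)
    have h5 : 0 ≤ x ^ 3 := pow_nonneg hx 3
    linarith
  calc Real.exp x = 1 * Real.exp x := (one_mul _).symm
    _ ≤ ((1 + x) * Real.exp (x ^ 2 - x)) * Real.exp x := mul_le_mul_of_nonneg_right h2 (Real.exp_pos _).le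
    _ = (1 + x) * Real.exp (x ^ 2) := by
      rw [mul_assoc, ← Real.exp_add, sub_add_cancel]

private lemma n05a_pow {q : ℕ} (hq : 2 ≤ q) {s : ℝ} (hs : 1 < s) (e : ℕ) :
    ((q ^ e : ℕ) : ℝ) ^ (-s) ≤ (1 / 2) ^ e := by
  have hq1 : 1 ≤ q ^ e := Nat.one_le_pow _ _ (by omega)
  have hq1' : (1 : ℝ) ≤ ((q ^ e : ℕ) : ℝ) := by exact_mod_cast hq1
  have h1 : ((q ^ e : ℕ) : ℝ) ^ (-s) ≤ ((q ^ e : ℕ) : ℝ) ^ (-1 : ℝ) :=
    Real.rpow_le_rpow_of_exponent_le hq1' (by linarith)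
  have h2 : ((q ^ e : ℕ) : ℝ) ^ (-1 : ℝ) = (((q ^ e : ℕ) : ℝ))⁻¹ := Real.rpow_neg_one _
  have h3 : (((q ^ e : ℕ) : ℝ))⁻¹ ≤ (1 / 2) ^ e := by
    rw [one_div, inv_pow]
    apply inv_anti₀ (by positivity)
    push_cast
    exact pow_le_pow_left₀ (by norm_num) (by exact_mod_cast hq) e
  rw [h2] at h1
  exact h1.trans h3

private lemma n05a_sum (d : ℕ) : Summable fun e : ℕ => ((e : ℝ) + 1) ^ d * (1 / 2) ^ e := by
  have h1 : Summable fun n : ℕ => (n : ℝ) ^ d * (1 / 2 : ℝ) ^ n :=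
    summable_pow_mul_geometric_of_norm_lt_one d (by rw [Real.norm_eq_abs, abs_of_pos] <;> norm_num)
  have h2 := ((summable_nat_add_iff 1).2 h1).mul_left 2
  refine h2.congr fun e => ?_
  push_cast
  rw [pow_succ]
  ring

/-- The series of the Euler factor converges. Proof: `u e ≤ (e+1)^d`, `q ≥ 2`, compare with
`(e+1)^d * 2^(-e)` (`summable_pow_mul_geometric_of_norm_lt_one` or root test). -/
theorem summable_factor (d : ℕ) {u : ℕ → ℝ} (hu0 : ∀ e, 0 ≤ u e) (hu : ∀ e, u e ≤ ((e : ℝ) + 1) ^ d)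
    {q : ℕ} (hq : 2 ≤ q) {s : ℝ} (hs : 1 < s) :
    Summable fun e : ℕ => u e * ((q ^ e : ℕ) : ℝ) ^ (-s) := by
  refine Summable.of_nonneg_of_le (fun e => mul_nonneg (hu0 e) (Real.rpow_nonneg (Nat.cast_nonneg _) _))
    (fun e => ?_) (n05a_sum d)
  exact mul_le_mul (hu e) (n05a_pow hq hs e) (Real.rpow_nonneg (Nat.cast_nonneg _) _)
    (pow_nonneg (by positivity) _)

/-- The majorant of the tail of the Euler factor is summable. -/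
theorem n05b_summable (d : ℕ) : Summable fun e : ℕ => ((e : ℝ) + 3) ^ d * (1 / 2 : ℝ) ^ e := by
  have h1 : Summable fun n : ℕ => (n : ℝ) ^ d * (1 / 2 : ℝ) ^ n :=
    summable_pow_mul_geometric_of_norm_lt_one d (by rw [Real.norm_eq_abs, abs_of_pos] <;> norm_num)
  have h2 := ((summable_nat_add_iff 3).2 h1).mul_left 8
  refine h2.congr fun e => ?_
  push_cast
  rw [pow_add]
  ring

/-- One term of the tail. -/
theorem n05b_term {d : ℕ} {u : ℕ → ℝ} (hu : ∀ e, u e ≤ ((e : ℝ) + 1) ^ d) {q : ℕ} (hq : 2 ≤ q)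
    {s : ℝ} (hs : 1 < s) (e : ℕ) :
    u (e + 2) * ((q ^ (e + 2) : ℕ) : ℝ) ^ (-s) ≤
      1 / (q : ℝ) ^ 2 * (((e : ℝ) + 3) ^ d * (1 / 2 : ℝ) ^ e) := by
  have hq0 : (2 : ℝ) ≤ q := by exact_mod_cast hq
  have hqpos : (0 : ℝ) < q := by linarith
  have h1 : (1 : ℝ) ≤ ((q ^ (e + 2) : ℕ) : ℝ) := by
    exact_mod_cast Nat.one_le_pow _ _ (by omega : 0 < q)
  have h2 : ((q ^ (e + 2) : ℕ) : ℝ) ^ (-s) ≤ 1 / (q : ℝ) ^ 2 * (1 / 2 : ℝ) ^ e := by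
    have h3 : ((q ^ (e + 2) : ℕ) : ℝ) ^ (-s) ≤ ((q ^ (e + 2) : ℕ) : ℝ) ^ (-1 : ℝ) :=
      Real.rpow_le_rpow_of_exponent_le h1 (by linarith)
    refine h3.trans ?_
    rw [Real.rpow_neg_one, Nat.cast_pow, pow_add, mul_inv, one_div, one_div, inv_pow, mul_comm]
    refine mul_le_mul_of_nonneg_left ?_ (by positivity)
    exact inv_anti₀ (by positivity) (pow_le_pow_left₀ (by norm_num) hq0 e)
  have h4 : u (e + 2) ≤ ((e : ℝ) + 3) ^ d := by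
    have h5 := hu (e + 2)
    push_cast at h5
    have h6 : (e : ℝ) + 2 + 1 = (e : ℝ) + 3 := by ring
    rwa [h6] at h5
  calc u (e + 2) * ((q ^ (e + 2) : ℕ) : ℝ) ^ (-s)
      ≤ ((e : ℝ) + 3) ^ d * ((q ^ (e + 2) : ℕ) : ℝ) ^ (-s) :=
        mul_le_mul_of_nonneg_right h4 (Real.rpow_nonneg (by linarith) _)
    _ ≤ ((e : ℝ) + 3) ^ d * (1 / (q : ℝ) ^ 2 * (1 / 2 : ℝ) ^ e) :=
        mul_le_mul_of_nonneg_left h2 (by positivity)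
    _ = 1 / (q : ℝ) ^ 2 * (((e : ℝ) + 3) ^ d * (1 / 2 : ℝ) ^ e) := by ring

/-- One Euler factor. `u e` stands for `a(q ^ e)`. Proof: the factor is `1 + u 1 * q ^ (-s) + R` with
`0 ≤ R = ∑_{e ≥ 2} ≤ ∑_{e ≥ 2} (e+1)^d q^(-e)` (since `s > 1`) `≤ C₁ / q ^ 2`,
`C₁ = ∑_{e ≥ 2} (e+1)^d 2^(2-e)`. -/
theorem factor_le (d : ℕ) : ∃ C : ℝ, 0 ≤ C ∧ ∀ (u : ℕ → ℝ), (∀ e, 0 ≤ u e) → u 0 = 1 →
    (∀ e, u e ≤ ((e : ℝ) + 1) ^ d) → ∀ (q : ℕ), 2 ≤ q → ∀ s : ℝ, 1 < s →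
      ∑' e : ℕ, u e * ((q ^ e : ℕ) : ℝ) ^ (-s) ≤ 1 + u 1 * (q : ℝ) ^ (-s) + C / (q : ℝ) ^ 2 := by
  refine ⟨∑' e : ℕ, ((e : ℝ) + 3) ^ d * (1 / 2 : ℝ) ^ e, tsum_nonneg fun e => by positivity, ?_⟩
  intro u hu0 hu1 hu q hq s hs
  have hsum := summable_factor d hu0 hu hq hs
  rw [← hsum.sum_add_tsum_nat_add 2, Finset.sum_range_succ, Finset.sum_range_one, hu1, pow_zero,
    Nat.cast_one, Real.one_rpow, one_mul, pow_one]
  have h1 : ∑' e : ℕ, u (e + 2) * ((q ^ (e + 2) : ℕ) : ℝ) ^ (-s) ≤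
      ∑' e : ℕ, 1 / (q : ℝ) ^ 2 * (((e : ℝ) + 3) ^ d * (1 / 2 : ℝ) ^ e) :=
    ((summable_nat_add_iff 2).2 hsum).tsum_le_tsum (fun e => n05b_term hu hq hs e)
      ((n05b_summable d).mul_left _)
  rw [tsum_mul_left] at h1
  have h2 : 1 / (q : ℝ) ^ 2 * ∑' e : ℕ, ((e : ℝ) + 3) ^ d * (1 / 2 : ℝ) ^ e =
      (∑' e : ℕ, ((e : ℝ) + 3) ^ d * (1 / 2 : ℝ) ^ e) / (q : ℝ) ^ 2 := by ring
  linarith

end Pool.Agent.Lib.MP_89bcae_ag.Re
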