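import Mathlib
import Pool.Agent.Lib.MP_89bcae_ag.Re.N05

open Filter Topology

namespace Pool.Agent.Lib.MP_89bcae_ag.Re

/-- Comparison of two Euler factors with `ℓ u(1) ≤ w(1)`. Proof: let `x = u 1 * q ^ (-s)`, so
`0 ≤ x ≤ 2 ^ d / q`. By `factor_le` the left side is at most
`(1 + x + C / q²) ^ ℓ ≤ exp (ℓ x + ℓ C / q²)` and by `exp_le_one_add_mul_exp_sq`
`exp (ℓ x) ≤ (1 + ℓ x) exp ((ℓ x)²)`, where `(ℓ x)² ≤ ℓ² 4 ^ d / q²`; finally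
`1 + ℓ x ≤ 1 + w 1 * q ^ (-s) ≤ ∑' e, w e * (q ^ e) ^ (-s)` (`summable_factor`, nonnegative terms,
`Summable.sum_le_tsum` for `{0, 1}`). -/
theorem factor_compare (d d' ℓ : ℕ) : ∃ C : ℝ, 0 ≤ C ∧ ∀ (u w : ℕ → ℝ), (∀ e, 0 ≤ u e) →
    (∀ e, 0 ≤ w e) → u 0 = 1 → w 0 = 1 → (∀ e, u e ≤ ((e : ℝ) + 1) ^ d) →
    (∀ e, w e ≤ ((e : ℝ) + 1) ^ d') → (ℓ : ℝ) * u 1 ≤ w 1 →
    ∀ (q : ℕ), 2 ≤ q → ∀ s : ℝ, 1 < s →
      (∑' e : ℕ, u e * ((q ^ e : ℕ) : ℝ) ^ (-s)) ^ ℓ ≤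
        Real.exp (C / (q : ℝ) ^ 2) * ∑' e : ℕ, w e * ((q ^ e : ℕ) : ℝ) ^ (-s) := by
  obtain ⟨C0, hC0, hfac⟩ := factor_le d
  refine ⟨(ℓ : ℝ) * C0 + (ℓ : ℝ) ^ 2 * 4 ^ d, by positivity, ?_⟩
  intro u w hu0 hw0 hu1 hw1 hud hwd hlw q hq s hs
  have hqR : (2 : ℝ) ≤ q := by exact_mod_cast hq
  have hqpos : (0 : ℝ) < q := by linarith
  have hps : (q : ℝ) ^ (-s) ≤ 1 / q := by
    rw [one_div, ← Real.rpow_neg_one]
    exact Real.rpow_le_rpow_of_exponent_le (by linarith) (by linarith)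
  have hps0 : 0 ≤ (q : ℝ) ^ (-s) := (Real.rpow_pos_of_pos hqpos _).le
  have hu1d : u 1 ≤ 2 ^ d := by
    have h := hud 1
    norm_num at h
    exact h
  have hx0 : 0 ≤ u 1 * (q : ℝ) ^ (-s) := mul_nonneg (hu0 1) hps0
  have hx1 : u 1 * (q : ℝ) ^ (-s) ≤ 2 ^ d / q := by
    calc u 1 * (q : ℝ) ^ (-s) ≤ 2 ^ d * (1 / q) :=
          mul_le_mul hu1d hps hps0 (by positivity)
      _ = 2 ^ d / q := by ring
  have hF := hfac u hu0 hu1 hud q hq s hs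
  set x := u 1 * (q : ℝ) ^ (-s) with hx
  have hT0 : 0 ≤ ∑' e : ℕ, u e * ((q ^ e : ℕ) : ℝ) ^ (-s) :=
    tsum_nonneg fun e => mul_nonneg (hu0 e) (Real.rpow_nonneg (Nat.cast_nonneg _) _)
  have hc0 : 0 ≤ C0 / (q : ℝ) ^ 2 := by positivity
  have h1 : (∑' e : ℕ, u e * ((q ^ e : ℕ) : ℝ) ^ (-s)) ^ ℓ ≤
      Real.exp ((ℓ : ℝ) * x) * Real.exp ((ℓ : ℝ) * (C0 / (q : ℝ) ^ 2)) := by
    calc (∑' e : ℕ, u e * ((q ^ e : ℕ) : ℝ) ^ (-s)) ^ ℓ ≤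
          (Real.exp (x + C0 / (q : ℝ) ^ 2)) ^ ℓ := by
          refine pow_le_pow_left₀ hT0 (hF.trans ?_) ℓ
          have := Real.add_one_le_exp (x + C0 / (q : ℝ) ^ 2)
          linarith
      _ = Real.exp ((ℓ : ℝ) * x) * Real.exp ((ℓ : ℝ) * (C0 / (q : ℝ) ^ 2)) := by
          rw [← Real.exp_nat_mul, ← Real.exp_add]
          congr 1
          ring
  have h2 : Real.exp ((ℓ : ℝ) * x) ≤ (1 + (ℓ : ℝ) * x) * Real.exp (((ℓ : ℝ) * x) ^ 2) :=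
    exp_le_one_add_mul_exp_sq (by positivity)
  have h3 : ((ℓ : ℝ) * x) ^ 2 ≤ (ℓ : ℝ) ^ 2 * 4 ^ d / (q : ℝ) ^ 2 := by
    calc ((ℓ : ℝ) * x) ^ 2 ≤ ((ℓ : ℝ) * (2 ^ d / q)) ^ 2 := by
          refine pow_le_pow_left₀ (by positivity) ?_ 2
          exact mul_le_mul_of_nonneg_left hx1 (Nat.cast_nonneg _)
      _ = (ℓ : ℝ) ^ 2 * 4 ^ d / (q : ℝ) ^ 2 := by
          rw [mul_pow, div_pow, ← pow_mul, mul_comm d 2, pow_mul]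
          norm_num
          ring
  have h4 : 1 + (ℓ : ℝ) * x ≤ ∑' e : ℕ, w e * ((q ^ e : ℕ) : ℝ) ^ (-s) := by
    have hsum := summable_factor d' hw0 hwd hq hs
    have h5 := hsum.sum_le_tsum {0, 1}
      (fun e _ => mul_nonneg (hw0 e) (Real.rpow_nonneg (Nat.cast_nonneg _) _))
    rw [Finset.sum_pair (by norm_num)] at h5
    simp only [pow_zero, pow_one, Nat.cast_one, Real.one_rpow, mul_one, hw1] at h5
    refine le_trans ?_ h5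
    have h6 : (ℓ : ℝ) * x ≤ w 1 * (q : ℝ) ^ (-s) := by
      rw [hx, ← mul_assoc]
      exact mul_le_mul_of_nonneg_right hlw hps0
    linarith
  have hlx : 0 ≤ 1 + (ℓ : ℝ) * x := by positivity
  calc (∑' e : ℕ, u e * ((q ^ e : ℕ) : ℝ) ^ (-s)) ^ ℓ ≤
        Real.exp ((ℓ : ℝ) * x) * Real.exp ((ℓ : ℝ) * (C0 / (q : ℝ) ^ 2)) := h1
    _ ≤ ((1 + (ℓ : ℝ) * x) * Real.exp ((ℓ : ℝ) ^ 2 * 4 ^ d / (q : ℝ) ^ 2)) *
        Real.exp ((ℓ : ℝ) * (C0 / (q : ℝ) ^ 2)) := by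
        refine mul_le_mul_of_nonneg_right (h2.trans ?_) (Real.exp_pos _).le
        exact mul_le_mul_of_nonneg_left (Real.exp_le_exp.2 h3) hlx
    _ = Real.exp (((ℓ : ℝ) * C0 + (ℓ : ℝ) ^ 2 * 4 ^ d) / (q : ℝ) ^ 2) * (1 + (ℓ : ℝ) * x) := by
        rw [mul_assoc, ← Real.exp_add, mul_comm]
        congr 2
        ring
    _ ≤ _ := mul_le_mul_of_nonneg_left h4 (Real.exp_pos _).le

private lemma n06b_pow {q : ℕ} (hq : 2 ≤ q) {s : ℝ} (hs : 1 < s) (e : ℕ) :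
    ((q ^ e : ℕ) : ℝ) ^ (-s) ≤ (1 / 2) ^ e := by
  have hq1 : 1 ≤ q ^ e := Nat.one_le_pow _ _ (by omega)
  have hq1' : (1 : ℝ) ≤ ((q ^ e : ℕ) : ℝ) := by exact_mod_cast hq1
  have h1 : ((q ^ e : ℕ) : ℝ) ^ (-s) ≤ ((q ^ e : ℕ) : ℝ) ^ (-1 : ℝ) :=
    Real.rpow_le_rpow_of_exponent_le hq1' (by linarith)
  have h2 : ((q ^ e : ℕ) : ℝ) ^ (-1 : ℝ) = (((q ^ e : ℕ) : ℝ))⁻¹ := Real.rpow_neg_one _
  have h3 : (((q ^ e : ℕ) : ℝ))⁻¹ ≤ (1 / 2) ^ e := by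
    rw [one_div, inv_pow]
    apply inv_anti₀ (by positivity)
    push_cast
    exact pow_le_pow_left₀ (by norm_num) (by exact_mod_cast hq) e
  rw [h2] at h1
  exact h1.trans h3

private lemma n06b_sum (d : ℕ) : Summable fun e : ℕ => ((e : ℝ) + 1) ^ d * (1 / 2) ^ e := by
  have h1 : Summable fun n : ℕ => (n : ℝ) ^ d * (1 / 2 : ℝ) ^ n :=
    summable_pow_mul_geometric_of_norm_lt_one d (by rw [Real.norm_eq_abs, abs_of_pos] <;> norm_num)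
  have h2 := ((summable_nat_add_iff 1).2 h1).mul_left 2
  refine h2.congr fun e => ?_
  push_cast
  rw [pow_succ]
  ring

/-- The same without the condition on `u 1`, `w 1`, with a constant which does not depend on `q`.
Proof: the left side is at most `(∑' e, (e+1)^d 2^(-e)) ^ ℓ` (a constant), the series on the right is
at least its term at `e = 0`, which is `1`. -/
theorem factor_compare_bad (d d' ℓ : ℕ) : ∃ C : ℝ, 1 ≤ C ∧ ∀ (u w : ℕ → ℝ), (∀ e, 0 ≤ u e) →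
    (∀ e, 0 ≤ w e) → u 0 = 1 → w 0 = 1 → (∀ e, u e ≤ ((e : ℝ) + 1) ^ d) →
    (∀ e, w e ≤ ((e : ℝ) + 1) ^ d') →
    ∀ (q : ℕ), 2 ≤ q → ∀ s : ℝ, 1 < s →
      (∑' e : ℕ, u e * ((q ^ e : ℕ) : ℝ) ^ (-s)) ^ ℓ ≤
        C * ∑' e : ℕ, w e * ((q ^ e : ℕ) : ℝ) ^ (-s) := by
  refine ⟨max 1 ((∑' e : ℕ, ((e : ℝ) + 1) ^ d * (1 / 2) ^ e) ^ ℓ), le_max_left _ _, ?_⟩
  intro u w hu0 hw0 _ hw1 hu hw q hq s hs
  have h0 : ∀ e : ℕ, 0 ≤ u e * ((q ^ e : ℕ) : ℝ) ^ (-s) := fun e =>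
    mul_nonneg (hu0 e) (Real.rpow_nonneg (Nat.cast_nonneg _) _)
  have h1 : (∑' e : ℕ, u e * ((q ^ e : ℕ) : ℝ) ^ (-s)) ≤ ∑' e : ℕ, ((e : ℝ) + 1) ^ d * (1 / 2) ^ e := by
    refine Summable.tsum_le_tsum (fun e => ?_) (summable_factor d hu0 hu hq hs) (n06b_sum d)
    exact mul_le_mul (hu e) (n06b_pow hq hs e) (Real.rpow_nonneg (Nat.cast_nonneg _) _)
      (pow_nonneg (by positivity) _)
  have h2 : (∑' e : ℕ, u e * ((q ^ e : ℕ) : ℝ) ^ (-s)) ^ ℓ ≤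
      max 1 ((∑' e : ℕ, ((e : ℝ) + 1) ^ d * (1 / 2) ^ e) ^ ℓ) :=
    (pow_le_pow_left₀ (tsum_nonneg h0) h1 ℓ).trans (le_max_right _ _)
  have h3 : 1 ≤ ∑' e : ℕ, w e * ((q ^ e : ℕ) : ℝ) ^ (-s) := by
    have h4 := (summable_factor d' hw0 hw hq hs).sum_le_tsum {0}
      (fun e _ => mul_nonneg (hw0 e) (Real.rpow_nonneg (Nat.cast_nonneg _) _))
    rw [Finset.sum_singleton, hw1, pow_zero, Nat.cast_one, Real.one_rpow, mul_one] at h4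
    exact h4
  have h5 : (0 : ℝ) ≤ max 1 ((∑' e : ℕ, ((e : ℝ) + 1) ^ d * (1 / 2) ^ e) ^ ℓ) :=
    zero_le_one.trans (le_max_left _ _)
  exact h2.trans (le_mul_of_one_le_right h5 h3)

end Pool.Agent.Lib.MP_89bcae_ag.Re
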