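import Mathlib
import Pool.Agent.Lib.MP_89bcae_ag.Re.N06

open Filter Topology

namespace Pool.Agent.Lib.MP_89bcae_ag.Re

private lemma n07_eulerHasProd {a : ℕ → ℝ} (ha : ∀ n, 0 ≤ a n) (ha1 : a 1 = 1)
    (ham : ∀ m n : ℕ, m.Coprime n → a (m * n) = a m * a n)
    {s : ℝ} (hs : 1 < s) (has : Summable fun n : ℕ => a n * (n : ℝ) ^ (-s)) :
    HasProd (fun p : Nat.Primes => ∑' e : ℕ, a ((p : ℕ) ^ e) * (((p : ℕ) ^ e : ℕ) : ℝ) ^ (-s))
      (∑' n : ℕ, a n * (n : ℝ) ^ (-s)) := by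
  have h := EulerProduct.eulerProduct_hasProd (R := ℝ) (f := fun n : ℕ => a n * (n : ℝ) ^ (-s))
    (by simp [ha1]) (by
      intro m n hmn
      simp only [ham m n hmn, Nat.cast_mul,
        Real.mul_rpow (Nat.cast_nonneg m) (Nat.cast_nonneg n)]
      ring) (by
      refine has.congr fun n => ?_
      rw [Real.norm_of_nonneg]
      exact mul_nonneg (ha n) (Real.rpow_nonneg (Nat.cast_nonneg n) _)) (by
      simp only [Nat.cast_zero]
      rw [Real.zero_rpow (by linarith), mul_zero])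
  exact h

private lemma n07_prod_le {C₁ C₂ : ℝ} (h1 : 0 ≤ C₁) (h2 : 1 ≤ C₂) (q₀ : ℕ)
    (T : Finset Nat.Primes) :
    ∏ p ∈ T, ((if (p : ℕ) < q₀ then C₂ else 1) * Real.exp (C₁ / ((p : ℕ) : ℝ) ^ 2)) ≤
      C₂ ^ q₀ * Real.exp (C₁ * ∑' n : ℕ, 1 / (n : ℝ) ^ 2) := by
  rw [Finset.prod_mul_distrib]
  have hS : Summable fun n : ℕ => 1 / (n : ℝ) ^ 2 := Real.summable_one_div_nat_pow.2 (by norm_num)
  refine mul_le_mul ?_ ?_ (Finset.prod_nonneg fun p _ => (Real.exp_pos _).le) (by positivity)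
  · rw [Finset.prod_ite, Finset.prod_const, Finset.prod_const_one, mul_one]
    refine pow_le_pow_right₀ h2 ?_
    calc (T.filter fun p : Nat.Primes => (p : ℕ) < q₀).card
        ≤ (Finset.range q₀).card := by
          apply Finset.card_le_card_of_injOn (fun p : Nat.Primes => (p : ℕ))
          · intro p hp
            simp only [Finset.coe_filter, Set.mem_ofPred_eq] at hp
            simp only [Finset.coe_range, Set.mem_Iio]
            exact hp.2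
          · intro p _ q _ h
            exact Subtype.ext h
      _ = q₀ := Finset.card_range q₀
  · rw [← Real.exp_sum]
    apply Real.exp_le_exp.2
    have e1 : ∑ p ∈ T, C₁ / ((p : ℕ) : ℝ) ^ 2 =
        C₁ * ∑ n ∈ T.map ⟨fun p : Nat.Primes => (p : ℕ), fun p q h => Subtype.ext h⟩,
          1 / (n : ℝ) ^ 2 := by
      rw [Finset.sum_map, Finset.mul_sum]
      refine Finset.sum_congr rfl fun p _ => ?_
      show C₁ / ((p : ℕ) : ℝ) ^ 2 = C₁ * (1 / ((p : ℕ) : ℝ) ^ 2)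
      ring
    rw [e1]
    refine mul_le_mul_of_nonneg_left ?_ h1
    exact hS.sum_le_tsum _ (fun n _ => by positivity)

/-- Comparison of two Euler products. Proof: the Euler product (`EulerProduct.eulerProduct_hasProd`
for `f n = a n * n ^ (-s)`, which is multiplicative on coprime arguments, `f 0 = 0`, summable norm)
gives `HasProd (fun q : Nat.Primes => ∑' e, a(q^e) (q^e)^(-s)) (∑' n, a n n^(-s))`, the same for `b`.
Let `C₁` be the constant of `factor_compare` and `C₂` that of `factor_compare_bad`. For every finite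
set `T` of primes the product over `T` of the `ℓ`-th powers of the factors of `a` is at most
`C₂ ^ q₀ * exp (C₁ ∑' n, 1/n²)` times the product over `T` of the factors of `b`; pass to the limit
(`le_of_tendsto_of_tendsto'`, `HasProd` is a `Tendsto` along finite sets). -/
theorem euler_compare {a b : ℕ → ℝ} {d d' ℓ q₀ : ℕ} (ha : ∀ n, 0 ≤ a n) (hb : ∀ n, 0 ≤ b n)
    (ha1 : a 1 = 1) (hb1 : b 1 = 1)
    (ham : ∀ m n : ℕ, m.Coprime n → a (m * n) = a m * a n)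
    (hbm : ∀ m n : ℕ, m.Coprime n → b (m * n) = b m * b n)
    (hap : ∀ q e : ℕ, q.Prime → a (q ^ e) ≤ ((e : ℝ) + 1) ^ d)
    (hbp : ∀ q e : ℕ, q.Prime → b (q ^ e) ≤ ((e : ℝ) + 1) ^ d')
    (has : ∀ s : ℝ, 1 < s → Summable fun n : ℕ => a n * (n : ℝ) ^ (-s))
    (hbs : ∀ s : ℝ, 1 < s → Summable fun n : ℕ => b n * (n : ℝ) ^ (-s))
    (hab : ∀ q : ℕ, q.Prime → q₀ ≤ q → (ℓ : ℝ) * a q ≤ b q) :
    ∃ C : ℝ, 0 < C ∧ ∀ s : ℝ, 1 < s →
      (∑' n : ℕ, a n * (n : ℝ) ^ (-s)) ^ ℓ ≤ C * ∑' n : ℕ, b n * (n : ℝ) ^ (-s) := by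
  obtain ⟨C₁, hC₁, h1⟩ := factor_compare d d' ℓ
  obtain ⟨C₂, hC₂, h2⟩ := factor_compare_bad d d' ℓ
  refine ⟨C₂ ^ q₀ * Real.exp (C₁ * ∑' n : ℕ, 1 / (n : ℝ) ^ 2), by positivity, fun s hs => ?_⟩
  have hA := n07_eulerHasProd ha ha1 ham hs (has s hs)
  have hB := n07_eulerHasProd hb hb1 hbm hs (hbs s hs)
  set FA : Nat.Primes → ℝ := fun p => ∑' e : ℕ, a ((p : ℕ) ^ e) * (((p : ℕ) ^ e : ℕ) : ℝ) ^ (-s)
    with hFA
  set FB : Nat.Primes → ℝ := fun p => ∑' e : ℕ, b ((p : ℕ) ^ e) * (((p : ℕ) ^ e : ℕ) : ℝ) ^ (-s)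
    with hFB
  have hFA0 : ∀ p, 0 ≤ FA p := fun p => tsum_nonneg fun e =>
    mul_nonneg (ha _) (Real.rpow_nonneg (Nat.cast_nonneg _) _)
  have hFB0 : ∀ p, 0 ≤ FB p := fun p => tsum_nonneg fun e =>
    mul_nonneg (hb _) (Real.rpow_nonneg (Nat.cast_nonneg _) _)
  have hK : ∀ p : Nat.Primes, FA p ^ ℓ ≤
      ((if (p : ℕ) < q₀ then C₂ else 1) * Real.exp (C₁ / ((p : ℕ) : ℝ) ^ 2)) * FB p := by
    intro p
    have hp := p.2
    by_cases hlt : (p : ℕ) < q₀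
    · rw [if_pos hlt]
      have h3 := h2 (fun e => a ((p : ℕ) ^ e)) (fun e => b ((p : ℕ) ^ e)) (fun e => ha _)
        (fun e => hb _) (by simpa using ha1) (by simpa using hb1) (fun e => hap _ _ hp)
        (fun e => hbp _ _ hp) (p : ℕ) hp.two_le s hs
      refine h3.trans ?_
      refine mul_le_mul_of_nonneg_right ?_ (hFB0 p)
      have h4 : 1 ≤ Real.exp (C₁ / ((p : ℕ) : ℝ) ^ 2) := Real.one_le_exp (by positivity)
      nlinarith [h4, hC₂]
    · rw [if_neg hlt, one_mul]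
      exact h1 (fun e => a ((p : ℕ) ^ e)) (fun e => b ((p : ℕ) ^ e)) (fun e => ha _)
        (fun e => hb _) (by simpa using ha1) (by simpa using hb1) (fun e => hap _ _ hp)
        (fun e => hbp _ _ hp) (by simpa using hab p hp (not_lt.1 hlt)) (p : ℕ) hp.two_le s hs
  have hT : ∀ T : Finset Nat.Primes, (∏ p ∈ T, FA p) ^ ℓ ≤
      (C₂ ^ q₀ * Real.exp (C₁ * ∑' n : ℕ, 1 / (n : ℝ) ^ 2)) * ∏ p ∈ T, FB p := by
    intro T
    rw [← Finset.prod_pow]
    calc ∏ p ∈ T, FA p ^ ℓ ≤ ∏ p ∈ T,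
          (((if (p : ℕ) < q₀ then C₂ else 1) * Real.exp (C₁ / ((p : ℕ) : ℝ) ^ 2)) * FB p) :=
          Finset.prod_le_prod (fun p _ => pow_nonneg (hFA0 p) _) (fun p _ => hK p)
      _ = (∏ p ∈ T, ((if (p : ℕ) < q₀ then C₂ else 1) * Real.exp (C₁ / ((p : ℕ) : ℝ) ^ 2))) *
          ∏ p ∈ T, FB p := Finset.prod_mul_distrib
      _ ≤ _ := mul_le_mul_of_nonneg_right (n07_prod_le hC₁ hC₂ q₀ T)
          (Finset.prod_nonneg fun p _ => hFB0 p)
  exact le_of_tendsto_of_tendsto' (Tendsto.pow hA ℓ) (Tendsto.const_mul _ hB) hT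

end Pool.Agent.Lib.MP_89bcae_ag.Re
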