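import Mathlib
import Pool.Agent.Lib.MP_89bcae_ag.Re.N02
import Pool.Agent.Lib.MP_89bcae_ag.Re.N03
import Pool.Agent.Lib.MP_89bcae_ag.Re.N04
import Pool.Agent.Lib.MP_89bcae_ag.Re.N07

open NumberField Ideal Filter Topology

namespace Pool.Agent.Lib.MP_89bcae_ag.Re

/-- A number field cannot have, for all large primes, at least `ℓ ≥ 2` times as many primes of
degree one as another one. Proof: `euler_compare` with `a = idealCount K`, `b = idealCount K'` gives
`zetaR K s ^ ℓ ≤ C zetaR K' s` for `s > 1`. Multiply by `(s - 1) ^ ℓ`: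
`((s-1) zetaR K s) ^ ℓ ≤ C (s-1)^(ℓ-1) ((s-1) zetaR K' s)`; for `s → 1+` (`zetaR_tendsto`) the left
side tends to `(dedekindZeta_residue K) ^ ℓ > 0` (`dedekindZeta_residue_pos`), the right side to
`0`. -/
theorem not_mul_le (K K' : Type*) [Field K] [NumberField K] [Field K'] [NumberField K'] {ℓ : ℕ}
    (hℓ : 2 ≤ ℓ) (q₀ : ℕ) :
    ∃ q : ℕ, q.Prime ∧ q₀ ≤ q ∧ idealCount K' q < ℓ * idealCount K q := by
  by_contra hcon
  push Not at hcon
  obtain ⟨C, hC, hle⟩ := euler_compare (a := fun n => (idealCount K n : ℝ))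
    (b := fun n => (idealCount K' n : ℝ)) (d := Module.finrank ℚ K) (d' := Module.finrank ℚ K')
    (ℓ := ℓ) (q₀ := q₀) (fun n => Nat.cast_nonneg _) (fun n => Nat.cast_nonneg _)
    (by simp only [idealCount_one, Nat.cast_one]) (by simp only [idealCount_one, Nat.cast_one])
    (fun m n h => by simp only [idealCount_mul K h, Nat.cast_mul])
    (fun m n h => by simp only [idealCount_mul K' h, Nat.cast_mul])
    (fun q e hq => by exact_mod_cast idealCount_prime_pow_le K hq e)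
    (fun q e hq => by exact_mod_cast idealCount_prime_pow_le K' hq e)
    (fun s hs => zetaR_summable K hs) (fun s hs => zetaR_summable K' hs)
    (fun q hq hqq => by exact_mod_cast hcon q hq hqq)
  have hle' : ∀ s : ℝ, 1 < s → zetaR K s ^ ℓ ≤ C * zetaR K' s := hle
  have h1 : Tendsto (fun s : ℝ => ((s - 1) * zetaR K s) ^ ℓ) (𝓝[>] 1)
      (𝓝 (dedekindZeta_residue K ^ ℓ)) := (zetaR_tendsto K).pow ℓ
  have h2 : Tendsto (fun s : ℝ => (s - 1) ^ (ℓ - 1)) (𝓝[>] 1) (𝓝 0) := by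
    have h3 : Tendsto (fun s : ℝ => (s - 1) ^ (ℓ - 1)) (𝓝 1) (𝓝 ((1 - 1) ^ (ℓ - 1))) :=
      ((continuous_id.sub continuous_const).pow (ℓ - 1)).tendsto 1
    rw [sub_self, zero_pow (by omega)] at h3
    exact h3.mono_left nhdsWithin_le_nhds
  have h4 : Tendsto (fun s : ℝ => C * ((s - 1) ^ (ℓ - 1) * ((s - 1) * zetaR K' s))) (𝓝[>] 1)
      (𝓝 0) := by
    have := (h2.mul (zetaR_tendsto K')).const_mul C
    rwa [zero_mul, mul_zero] at this
  have h5 : dedekindZeta_residue K ^ ℓ ≤ 0 := by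
    refine le_of_tendsto_of_tendsto h1 h4 ?_
    filter_upwards [self_mem_nhdsWithin] with s hs
    have hs' : (1 : ℝ) < s := hs
    have hs0 : 0 ≤ s - 1 := by linarith
    have h6 := mul_le_mul_of_nonneg_left (hle' s hs') (pow_nonneg hs0 ℓ)
    have h7 : (s - 1) ^ ℓ = (s - 1) ^ (ℓ - 1) * (s - 1) := by
      rw [← pow_succ]
      congr 1
      omega
    calc ((s - 1) * zetaR K s) ^ ℓ = (s - 1) ^ ℓ * zetaR K s ^ ℓ := mul_pow _ _ _
      _ ≤ (s - 1) ^ ℓ * (C * zetaR K' s) := h6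
      _ = C * ((s - 1) ^ (ℓ - 1) * ((s - 1) * zetaR K' s)) := by rw [h7]; ring
  exact absurd h5 (not_le.2 (pow_pos (dedekindZeta_residue_pos K) ℓ))

end Pool.Agent.Lib.MP_89bcae_ag.Re
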