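import Mathlib
import Pool.Agent.Lib.MP_89bcae_ag.Re.N01

open NumberField Ideal

namespace Pool.Agent.Lib.MP_89bcae_ag.Re

/-- Proof: a ring homomorphism is determined by its restriction to a finite set of generators of the
`ℤ`-module `𝓞 K`; or it is determined by its kernel, see below. -/
theorem finite_ringHom (K : Type*) [Field K] [NumberField K] (q : ℕ) [Fact q.Prime] :
    Finite (𝓞 K →+* ZMod q) := by
  obtain ⟨s, hs⟩ := (inferInstance : Module.Finite ℤ (𝓞 K)).fg_top
  refine Finite.of_injective
    (fun (φ : 𝓞 K →+* ZMod q) => (fun x : (s : Set (𝓞 K)) => φ x.1)) ?_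
  intro φ ψ h
  have h1 : φ.toAddMonoidHom.toIntLinearMap = ψ.toAddMonoidHom.toIntLinearMap := by
    apply LinearMap.ext_on hs
    intro x hx
    exact congrFun h ⟨x, hx⟩
  ext x
  exact LinearMap.congr_fun h1 x

/-- A ring homomorphism to `ZMod q` is surjective. -/
theorem surj_of_ringHom {R : Type*} [CommRing R] (q : ℕ) [Fact q.Prime] (φ : R →+* ZMod q) :
    Function.Surjective φ := by
  intro x
  exact ⟨((ZMod.val x : ℕ) : R), by simp⟩

/-- The kernel of a ring homomorphism to `ZMod q` has norm `q`. -/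
theorem absNorm_ker (K : Type*) [Field K] [NumberField K] (q : ℕ) [Fact q.Prime]
    (φ : 𝓞 K →+* ZMod q) : absNorm (RingHom.ker φ) = q := by
  rw [Ideal.absNorm_apply, Submodule.cardQuot_apply]
  have e := RingHom.quotientKerEquivOfSurjective (surj_of_ringHom q φ)
  have h := Nat.card_congr e.toEquiv
  rw [Nat.card_zmod] at h
  exact h

/-- Proof: `φ ↦ ker φ` is a bijection from the ring homomorphisms to the ideals of norm `q`. The
homomorphism `φ` is surjective (`ZMod q` is generated by `1`), so the quotient by the kernel has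
`q` elements (`Ideal.absNorm_apply`, `Submodule.cardQuot`). Injective: if `ker φ = ker ψ` then for
each `x` there is an integer `n` with `φ x = n = φ n`, so `x - n ∈ ker φ = ker ψ` and `ψ x = n`.
Surjective: an ideal `I` of norm `q` is maximal or: the quotient ring has `q` elements, so it is
isomorphic to `ZMod q` (`ZMod.ringEquivOfPrime` or `ZMod.ringEquiv`), compose with the quotient map. -/
theorem idealCount_eq_card (K : Type*) [Field K] [NumberField K] (q : ℕ) [Fact q.Prime] :
    idealCount K q = Nat.card (𝓞 K →+* ZMod q) := by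
  unfold idealCount
  symm
  refine Nat.card_eq_of_bijective
    (fun φ : 𝓞 K →+* ZMod q => (⟨RingHom.ker φ, absNorm_ker K q φ⟩ :
      {I : Ideal (𝓞 K) // absNorm I = q})) ⟨?_, ?_⟩
  · intro φ ψ h
    have hk : RingHom.ker φ = RingHom.ker ψ := congrArg Subtype.val h
    ext x
    have h1 : x - ((ZMod.val (φ x) : ℕ) : 𝓞 K) ∈ RingHom.ker φ := by
      rw [RingHom.mem_ker]
      simp
    rw [hk, RingHom.mem_ker] at h1
    rw [map_sub, map_natCast, ZMod.natCast_rightInverse (φ x)] at h1
    exact (sub_eq_zero.mp h1).symm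
  · rintro ⟨I, hI⟩
    have hq : q.Prime := Fact.out
    rw [Ideal.absNorm_apply, Submodule.cardQuot_apply] at hI
    have hc : Nat.card (𝓞 K ⧸ I) = q := hI
    have : Finite (𝓞 K ⧸ I) := Nat.finite_of_card_ne_zero (by rw [hc]; exact hq.ne_zero)
    let _ : Fintype (𝓞 K ⧸ I) := Fintype.ofFinite _
    have hF : Fintype.card (𝓞 K ⧸ I) = q := by
      rw [← Nat.card_eq_fintype_card]; exact hc
    let e := ZMod.ringEquivOfPrime (𝓞 K ⧸ I) hq hF
    refine ⟨(e.symm : (𝓞 K ⧸ I) →+* ZMod q).comp (Ideal.Quotient.mk I), ?_⟩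
    apply Subtype.ext
    ext x
    simp only [RingHom.mem_ker, RingHom.comp_apply, RingHom.coe_coe]
    rw [map_eq_zero_iff e.symm e.symm.injective, Ideal.Quotient.eq_zero_iff_mem]

end Pool.Agent.Lib.MP_89bcae_ag.Re
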