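import Mathlib

open NumberField Polynomial

namespace Pool.Agent.Lib.MP_89bcae_ag.Re

private theorem exists_nat_mul_int (K : Type*) [Field K] [NumberField K] (a : K) :
    ∃ M : ℕ, M ≠ 0 ∧ ∃ b : 𝓞 K, (b : K) = M * a := by
  have halg : IsAlgebraic ℤ a := by
    have h1 : IsAlgebraic ℚ a := Algebra.IsAlgebraic.isAlgebraic a
    exact (IsFractionRing.isAlgebraic_iff ℤ ℚ K).mpr h1
  obtain ⟨y, hy0, hy⟩ := halg.exists_integral_multiple
  refine ⟨y.natAbs, Int.natAbs_ne_zero.mpr hy0, ?_⟩
  have hy2 : IsIntegral ℤ ((y.natAbs : K) * a) := by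
    rcases Int.natAbs_eq y with h | h
    · have : ((y.natAbs : K) * a) = y • a := by
        rw [zsmul_eq_mul]
        conv_rhs => rw [h]
        simp
      rw [this]; exact hy
    · have : ((y.natAbs : K) * a) = - (y • a) := by
        rw [zsmul_eq_mul]
        conv_rhs => rw [h]
        simp
      rw [this]; exact hy.neg
  exact ⟨⟨_, hy2⟩, rfl⟩

private theorem exists_nat_mul_poly (K : Type*) [Field K] [NumberField K] (p : K[X]) :
    ∃ M : ℕ, M ≠ 0 ∧ ∃ q : (𝓞 K)[X], q.map (algebraMap (𝓞 K) K) = (M : K[X]) * p := by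
  induction p using Polynomial.induction_on' with
  | add p q hp hq =>
    obtain ⟨M, hM, P, hP⟩ := hp
    obtain ⟨N, hN, Q, hQ⟩ := hq
    refine ⟨M * N, mul_ne_zero hM hN, (N : (𝓞 K)[X]) * P + (M : (𝓞 K)[X]) * Q, ?_⟩
    rw [Polynomial.map_add, Polynomial.map_mul, Polynomial.map_mul, hP, hQ]
    simp only [Polynomial.map_natCast]
    push_cast
    ring
  | monomial n a =>
    obtain ⟨M, hM, b, hb⟩ := exists_nat_mul_int K a
    refine ⟨M, hM, Polynomial.monomial n b, ?_⟩
    rw [Polynomial.map_monomial]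
    have : (M : K[X]) = C (M : K) := by simp
    rw [this, Polynomial.C_mul_monomial]
    congr 1

/-- A common denominator. Proof: `𝓞 K'` is generated by finitely many elements `y` as an `ℤ`-module
(`Module.Finite ℤ (𝓞 K')`); each is `aeval α p` with `p ∈ K[X]` (`Algebra.adjoin_singleton_eq_range_aeval`),
and a nonzero integer times `p` has coefficients in `𝓞 K`
(`IsLocalization.integerNormalization`, or `exist_integer_multiples_of_finset` with
`IsLocalization (nonZeroDivisors ℤ)` or `IsIntegralClosure.exists_smul_eq_mul` ...); take the product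
of these integers, and extend to sums of integral multiples of the generators
(`Submodule.span_induction`). -/
theorem exists_denominator (K K' : Type*) [Field K] [NumberField K] [Field K'] [NumberField K']
    [Algebra K K'] {α : 𝓞 K'} (hα : Algebra.adjoin K {(α : K')} = ⊤) :
    ∃ M : ℕ, M ≠ 0 ∧ ∀ y : 𝓞 K', ∃ p : (𝓞 K)[X], (M : 𝓞 K') * y = aeval α p := by
  classical
  -- one element
  have h1 : ∀ y : 𝓞 K', ∃ M : ℕ, M ≠ 0 ∧ ∃ p : (𝓞 K)[X], (M : 𝓞 K') * y = aeval α p := by
    intro y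
    have hy : (y : K') ∈ Algebra.adjoin K {(α : K')} := by rw [hα]; trivial
    rw [Algebra.adjoin_singleton_eq_range_aeval] at hy
    obtain ⟨p, hp⟩ := hy
    obtain ⟨M, hM, q, hq⟩ := exists_nat_mul_poly K p
    refine ⟨M, hM, q, ?_⟩
    apply RingOfIntegers.coe_injective
    have e1 : ((aeval α q : 𝓞 K') : K') = aeval (α : K') q := by
      have := Polynomial.aeval_algebraMap_apply K' α q
      exact this.symm
    have e2 : aeval (α : K') q = aeval (α : K') (q.map (algebraMap (𝓞 K) K)) := by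
      rw [Polynomial.aeval_map_algebraMap]
    change (((M : 𝓞 K') * y : 𝓞 K') : K') = ((aeval α q : 𝓞 K') : K')
    rw [e1, e2, hq, map_mul, map_natCast]
    have hp' : aeval (α : K') p = (y : K') := hp
    rw [hp']
    simp
  -- a finite family
  obtain ⟨s, hs⟩ := (Module.Finite.fg_top : (⊤ : Submodule ℤ (𝓞 K')).FG)
  choose M hM p hp using h1
  refine ⟨∏ y ∈ s, M y, Finset.prod_ne_zero_iff.mpr (fun y _ => hM y), ?_⟩
  intro y
  have hy : y ∈ Submodule.span ℤ (s : Set (𝓞 K')) := by rw [hs]; trivial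
  induction hy using Submodule.span_induction with
  | mem x hx =>
    have hx' : x ∈ s := hx
    refine ⟨((∏ y ∈ s.erase x, M y : ℕ) : (𝓞 K)[X]) * p x, ?_⟩
    rw [map_mul, map_natCast, ← hp x, ← mul_assoc, ← Nat.cast_mul, mul_comm (∏ y ∈ s.erase x, M y),
      Finset.mul_prod_erase s M hx']
  | zero => exact ⟨0, by simp⟩
  | add a b _ _ ha hb =>
    obtain ⟨P, hP⟩ := ha
    obtain ⟨Q, hQ⟩ := hb
    exact ⟨P + Q, by rw [mul_add, hP, hQ, map_add]⟩
  | smul n a _ ha =>
    obtain ⟨P, hP⟩ := ha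
    refine ⟨(n : (𝓞 K)[X]) * P, ?_⟩
    rw [map_mul, map_intCast, ← hP, zsmul_eq_mul]
    ring

end Pool.Agent.Lib.MP_89bcae_ag.Re
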