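import Mathlib

open NumberField Polynomial

namespace Pool.Agent.Lib.MP_89bcae_ag.Re

private theorem n11_key (K K' : Type*) [Field K] [NumberField K] [Field K'] [NumberField K']
    [Algebra K K'] {ℓ : ℕ} (hℓ : 0 < ℓ) {b : 𝓞 K} {α : 𝓞 K'}
    (hb : α ^ ℓ = algebraMap (𝓞 K) (𝓞 K') b) (hirr : Irreducible (X ^ ℓ - C (b : K)))
    {q : ℕ} (φ : 𝓞 K →+* ZMod q) {c : ZMod q} (hc : c ^ ℓ = φ b) (p : (𝓞 K)[X])
    (hp : aeval α p = 0) : eval₂ φ c p = 0 := by
  have hmon : (X ^ ℓ - C b : (𝓞 K)[X]).Monic := monic_X_pow_sub_C b hℓ.ne'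
  have hPα : aeval α (X ^ ℓ - C b : (𝓞 K)[X]) = 0 := by
    simp [hb]
  have hPc : eval₂ φ c (X ^ ℓ - C b : (𝓞 K)[X]) = 0 := by
    simp [hc]
  have hdiv := modByMonic_add_div p (X ^ ℓ - C b : (𝓞 K)[X])
  set r := p %ₘ (X ^ ℓ - C b : (𝓞 K)[X]) with hr
  have hrα : aeval α r = 0 := by
    have h := congrArg (aeval α) hdiv
    rw [map_add, map_mul, hPα, zero_mul, add_zero, hp] at h
    exact h
  have hmonK : (X ^ ℓ - C (b : K) : K[X]).Monic := monic_X_pow_sub_C _ hℓ.ne'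
  have hαK : aeval (α : K') (X ^ ℓ - C (b : K) : K[X]) = 0 := by
    have h1 : ((α ^ ℓ : 𝓞 K') : K') = ((algebraMap (𝓞 K) (𝓞 K') b : 𝓞 K') : K') := by rw [hb]
    have h2 : (α : K') ^ ℓ = algebraMap K K' (b : K) := by
      have h3 : algebraMap (𝓞 K') K' (algebraMap (𝓞 K) (𝓞 K') b) =
          algebraMap K K' (algebraMap (𝓞 K) K b) := by
        rw [← IsScalarTower.algebraMap_apply, ← IsScalarTower.algebraMap_apply]
      rw [← h3, ← hb, map_pow]
    simp only [map_sub, map_pow, aeval_X, aeval_C, h2, sub_self]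
  have hmin := minpoly.eq_of_irreducible_of_monic hirr hαK hmonK
  have hrK : aeval (α : K') (r.map (algebraMap (𝓞 K) K)) = 0 := by
    have h1 : aeval (α : K') (r.map (algebraMap (𝓞 K) K)) = algebraMap (𝓞 K') K' (aeval α r) := by
      rw [aeval_map_algebraMap, aeval_algebraMap_apply]
    rw [h1, hrα, map_zero]
  have hr0 : r = 0 := by
    have hdvd := minpoly.dvd K (α : K') hrK
    rw [← hmin] at hdvd
    have hdeg : (r.map (algebraMap (𝓞 K) K)).degree < (X ^ ℓ - C (b : K) : K[X]).degree := by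
      calc (r.map (algebraMap (𝓞 K) K)).degree ≤ r.degree := degree_map_le
        _ < (X ^ ℓ - C b : (𝓞 K)[X]).degree := degree_modByMonic_lt _ hmon
        _ = ℓ := degree_X_pow_sub_C hℓ _
        _ = _ := (degree_X_pow_sub_C hℓ _).symm
    have h0 : r.map (algebraMap (𝓞 K) K) = 0 := by
      by_contra hne
      exact absurd (degree_le_of_dvd hdvd hne) (not_le.mpr hdeg)
    exact (Polynomial.map_eq_zero_iff (IsFractionRing.injective (𝓞 K) K)).mp h0
  rw [← hdiv, hr0, zero_add, eval₂_mul, hPc, zero_mul]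

/-- Extension of a homomorphism to `F_q`. Proof: `X ^ ℓ - C b` is the minimal polynomial of `α` over
`K` (`hirr`, monic, `minpoly.eq_of_irreducible_of_monic`), so, since `𝓞 K` is integrally closed, that
over `𝓞 K` too (`minpoly.isIntegrallyClosed_eq_field_fractions'`): a polynomial `p ∈ (𝓞 K)[X]` with
`aeval α p = 0` is a multiple of `X ^ ℓ - C b` (`minpoly.isIntegrallyClosed_dvd`). So
`eval₂ φ c p = 0` whenever `aeval α p = 0`, because `c ^ ℓ = φ b`. Define `ψ y = M⁻¹ * eval₂ φ c p` for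
any `p` with `M * y = aeval α p` (`Classical.choose`): this does not depend on `p`; it is additive; it
is multiplicative: if `M y = p(α)`, `M z = r(α)`, `M (y z) = w(α)`, then `p r - C M * w` is zero at
`α`. Values: `ψ (algebraMap x) = φ x` with `p = C (M x)`, `ψ α = c` with `p = C M * X`. -/
theorem exists_extension (K K' : Type*) [Field K] [NumberField K] [Field K'] [NumberField K']
    [Algebra K K'] {ℓ : ℕ} (hℓ : 0 < ℓ) {b : 𝓞 K} {α : 𝓞 K'}
    (hb : α ^ ℓ = algebraMap (𝓞 K) (𝓞 K') b) (hirr : Irreducible (X ^ ℓ - C (b : K)))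
    {M : ℕ} (hM : ∀ y : 𝓞 K', ∃ p : (𝓞 K)[X], (M : 𝓞 K') * y = aeval α p)
    {q : ℕ} [Fact q.Prime] (hqM : ¬ q ∣ M) (φ : 𝓞 K →+* ZMod q) {c : ZMod q} (hc : c ^ ℓ = φ b) :
    ∃ ψ : 𝓞 K' →+* ZMod q, (∀ x : 𝓞 K, ψ (algebraMap (𝓞 K) (𝓞 K') x) = φ x) ∧ ψ α = c := by
  have hM0 : (M : ZMod q) ≠ 0 := by
    rw [Ne, ZMod.natCast_eq_zero_iff]
    exact hqM
  have key : ∀ p r : (𝓞 K)[X], aeval α p = aeval α r → eval₂ φ c p = eval₂ φ c r := by
    intro p r h
    have h1 : aeval α (p - r) = 0 := by rw [map_sub, h, sub_self]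
    have h2 := n11_key K K' hℓ hb hirr φ hc (p - r) h1
    rw [eval₂_sub, sub_eq_zero] at h2
    exact h2
  choose P hP using hM
  have val : ∀ (y : 𝓞 K') (p : (𝓞 K)[X]), (M : 𝓞 K') * y = aeval α p →
      (M : ZMod q)⁻¹ * eval₂ φ c (P y) = (M : ZMod q)⁻¹ * eval₂ φ c p := by
    intro y p hp
    rw [key (P y) p ((hP y).symm.trans hp)]
  have valM : ∀ (y : 𝓞 K') (p : (𝓞 K)[X]) (d : ZMod q), (M : 𝓞 K') * y = aeval α p →
      eval₂ φ c p = M * d → (M : ZMod q)⁻¹ * eval₂ φ c (P y) = d := by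
    intro y p d hp hd
    rw [val y p hp, hd, ← mul_assoc, inv_mul_cancel₀ hM0, one_mul]
  refine ⟨{ toFun := fun y => (M : ZMod q)⁻¹ * eval₂ φ c (P y)
            map_one' := ?_
            map_mul' := ?_
            map_zero' := ?_
            map_add' := ?_ }, ?_, ?_⟩
  · apply valM 1 (C (M : 𝓞 K)) 1
    · simp
    · simp
  · intro x y
    apply valM (x * y) (P (x * y))
    · exact hP _
    · have h1 : aeval α (C (M : 𝓞 K) * P (x * y)) = aeval α (P x * P y) := by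
        rw [map_mul, map_mul, ← hP x, ← hP y, ← hP (x * y)]
        simp only [map_natCast]
        ring
      have h2 := key _ _ h1
      rw [eval₂_mul, eval₂_mul, eval₂_C, map_natCast] at h2
      have h3 : (M : ZMod q) * ((M : ZMod q)⁻¹ * eval₂ φ c (P x) * ((M : ZMod q)⁻¹ * eval₂ φ c (P y)))
          = (M : ZMod q)⁻¹ * (eval₂ φ c (P x) * eval₂ φ c (P y)) := by
        have : (M : ZMod q) * (M : ZMod q)⁻¹ = 1 := mul_inv_cancel₀ hM0
        linear_combination ((M : ZMod q)⁻¹ * (eval₂ φ c (P x) * eval₂ φ c (P y))) * this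
      rw [h3, ← h2, ← mul_assoc, inv_mul_cancel₀ hM0, one_mul]
  · apply valM 0 0 0
    · simp
    · simp
  · intro x y
    show (M : ZMod q)⁻¹ * eval₂ φ c (P (x + y)) = (M : ZMod q)⁻¹ * eval₂ φ c (P x) +
      (M : ZMod q)⁻¹ * eval₂ φ c (P y)
    rw [val (x + y) (P x + P y), eval₂_add, mul_add]
    rw [map_add, ← hP x, ← hP y, mul_add]
  · intro x
    show (M : ZMod q)⁻¹ * eval₂ φ c (P _) = φ x
    apply valM _ (C ((M : 𝓞 K) * x))
    · rw [aeval_C, map_mul, map_natCast]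
    · rw [eval₂_C, map_mul, map_natCast]
  · show (M : ZMod q)⁻¹ * eval₂ φ c (P _) = c
    apply valM _ (C (M : 𝓞 K) * X)
    · rw [map_mul, aeval_C, aeval_X, map_natCast]
    · rw [eval₂_mul, eval₂_C, eval₂_X, map_natCast]

end Pool.Agent.Lib.MP_89bcae_ag.Re
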