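import Mathlib
import Pool.Agent.Lib.MP_89bcae_ag.Re.N09
import Pool.Agent.Lib.MP_89bcae_ag.Re.N10
import Pool.Agent.Lib.MP_89bcae_ag.Re.N11

open NumberField Polynomial

namespace Pool.Agent.Lib.MP_89bcae_ag.Re

/-- A primitive root of unity stays primitive modulo large primes. Proof: `ℓ` is prime, so it is
enough that `φ ζ ≠ 1` (`IsPrimitiveRoot.of_map_of_injective`... or `orderOf_eq_prime`); if
`φ ζ = 1` then, since `1 + ζ + ... + ζ ^ (ℓ - 1) = 0` (`IsPrimitiveRoot.geom_sum_eq_zero`),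
`φ` of it gives `(ℓ : ZMod q) = 0`, so `q ∣ ℓ` and `q = ℓ`. -/
theorem isPrimitiveRoot_map {K : Type*} [Field K] [NumberField K] {ℓ : ℕ} (hℓ : ℓ.Prime)
    {ζ : 𝓞 K} (hζ : IsPrimitiveRoot ζ ℓ) {q : ℕ} [Fact q.Prime] (hq : ℓ < q)
    (φ : 𝓞 K →+* ZMod q) : IsPrimitiveRoot (φ ζ) ℓ := by
  haveI : Fact ℓ.Prime := ⟨hℓ⟩
  have h1 : (φ ζ) ^ ℓ = 1 := by rw [← map_pow, hζ.pow_eq_one, map_one]
  have hne : φ ζ ≠ 1 := by
    intro h
    have hs := hζ.geom_sum_eq_zero hℓ.one_lt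
    have h2 := congrArg φ hs
    simp only [map_sum, map_pow, h, one_pow, Finset.sum_const, Finset.card_range, nsmul_eq_mul,
      mul_one, map_zero] at h2
    have h3 : q ∣ ℓ := (ZMod.natCast_eq_zero_iff ℓ q).1 h2
    have h4 := Nat.le_of_dvd hℓ.pos h3
    omega
  have h5 := orderOf_eq_prime h1 hne
  have h6 := IsPrimitiveRoot.orderOf (φ ζ)
  rwa [h5] at h6

/-- Proof: for each `φ` choose `c` with `c ^ ℓ = φ b ≠ 0`; the `ℓ` elements `φ(ζ)^i c`, `i < ℓ`, are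
distinct (`isPrimitiveRoot_map`) with the same power; `exists_extension` gives `ψ_(φ,i)` with
restriction `φ` and value `φ(ζ)^i c` at `α`: an injective map from `(𝓞 K →+* ZMod q) × Fin ℓ` to
`𝓞 K' →+* ZMod q`; `idealCount_eq_card`, `Nat.card_le_card_of_injective`, `finite_ringHom`. -/
theorem mul_idealCount_le (K K' : Type*) [Field K] [NumberField K] [Field K'] [NumberField K']
    [Algebra K K'] {ℓ : ℕ} (hℓ : ℓ.Prime) {ζ : 𝓞 K} (hζ : IsPrimitiveRoot ζ ℓ) {b : 𝓞 K} {α : 𝓞 K'}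
    (hb : α ^ ℓ = algebraMap (𝓞 K) (𝓞 K') b) (hirr : Irreducible (X ^ ℓ - C (b : K)))
    {M : ℕ} (hM : ∀ y : 𝓞 K', ∃ p : (𝓞 K)[X], (M : 𝓞 K') * y = aeval α p)
    {q : ℕ} [Fact q.Prime] (hqM : ¬ q ∣ M) (hqℓ : ℓ < q)
    (hφ : ∀ φ : 𝓞 K →+* ZMod q, φ b ≠ 0 ∧ ∃ c : ZMod q, c ^ ℓ = φ b) :
    ℓ * idealCount K q ≤ idealCount K' q := by
  classical
  rw [idealCount_eq_card K q, idealCount_eq_card K' q]
  haveI := finite_ringHom K q
  haveI := finite_ringHom K' q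
  choose hb0 c hc using hφ
  have hext : ∀ (φ : 𝓞 K →+* ZMod q) (i : Fin ℓ), ∃ ψ : 𝓞 K' →+* ZMod q,
      (∀ x : 𝓞 K, ψ (algebraMap (𝓞 K) (𝓞 K') x) = φ x) ∧ ψ α = (φ ζ) ^ (i : ℕ) * c φ := by
    intro φ i
    refine exists_extension K K' hℓ.pos hb hirr hM hqM φ ?_
    rw [mul_pow, ← pow_mul, mul_comm (i : ℕ), pow_mul,
      (isPrimitiveRoot_map hℓ hζ hqℓ φ).pow_eq_one, one_pow, one_mul, hc]
  choose ψ hψ1 hψ2 using hext
  have hinj : Function.Injective (fun p : (𝓞 K →+* ZMod q) × Fin ℓ => ψ p.1 p.2) := by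
    rintro ⟨φ, i⟩ ⟨φ', j⟩ h
    have h' : ψ φ i = ψ φ' j := h
    have hφφ' : φ = φ' := RingHom.ext fun x => by rw [← hψ1 φ i x, h', hψ1]
    subst hφφ'
    have h2 : (φ ζ) ^ (i : ℕ) * c φ = (φ ζ) ^ (j : ℕ) * c φ := by
      rw [← hψ2 φ i, h', hψ2]
    have hc0 : c φ ≠ 0 := by
      intro h0
      apply hb0 φ
      rw [← hc φ, h0, zero_pow hℓ.ne_zero]
    have h3 := mul_right_cancel₀ hc0 h2
    have h4 := (isPrimitiveRoot_map hℓ hζ hqℓ φ).pow_inj i.2 j.2 h3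
    exact Prod.ext rfl (Fin.ext h4)
  have h7 := Nat.card_le_card_of_injective _ hinj
  rw [Nat.card_prod, Nat.card_fin] at h7
  rw [mul_comm]
  exact h7

end Pool.Agent.Lib.MP_89bcae_ag.Re
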