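import Mathlib
import Pool.Agent.Lib.MP_89bcae_ag.Re.N08
import Pool.Agent.Lib.MP_89bcae_ag.Re.N12

open NumberField Polynomial

namespace Pool.Agent.Lib.MP_89bcae_ag.Re

/-- A nonzero integer is not killed modulo large primes. Proof: `φ b = 0` implies that the norm of `b`
(`Algebra.norm ℤ b`, a nonzero integer, which is a multiple of `b` in `𝓞 K`:
`Algebra.dvd_norm` or `Ideal.absNorm_mem` for the ideal `span {b}`) is zero in `ZMod q`; so `q` divides
it; take `N` its absolute value. -/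
theorem exists_bound_ne_zero (K : Type*) [Field K] [NumberField K] {b : 𝓞 K} (hb : b ≠ 0) :
    ∃ N : ℕ, ∀ (q : ℕ) [Fact q.Prime], N < q → ∀ φ : 𝓞 K →+* ZMod q, φ b ≠ 0 := by
  have hn : Algebra.norm ℤ b ≠ 0 := by
    rw [Ne, Algebra.norm_eq_zero_iff]; exact hb
  refine ⟨(Algebra.norm ℤ b).natAbs, ?_⟩
  intro q _ hq φ hφ
  have hmem : ((Ideal.span {b} : Ideal (𝓞 K)).absNorm : 𝓞 K) ∈ Ideal.span {b} :=
    Ideal.absNorm_mem _
  rw [Ideal.absNorm_span_singleton, Ideal.mem_span_singleton] at hmem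
  obtain ⟨c, hc⟩ := hmem
  have h0 : (((Algebra.norm ℤ b).natAbs : ℕ) : ZMod q) = 0 := by
    have := congrArg φ hc
    rw [map_natCast, map_mul, hφ, zero_mul] at this
    exact this
  rw [ZMod.natCast_eq_zero_iff] at h0
  exact absurd (Nat.le_of_dvd (Int.natAbs_pos.mpr hn) h0) (by omega)

/-- **Primes with a non-residue.** Proof: suppose the contrary for all `q > N`. The polynomial
`X ^ ℓ - C b` is irreducible over `K` (`X_pow_sub_C_irreducible_of_prime`); let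
`K' = AdjoinRoot (X ^ ℓ - C b)`, a number field (finite over `K`), `α` the root, which is integral,
so it is an element of `𝓞 K'` with `α ^ ℓ = b`, `K' = K(α)` (`AdjoinRoot.adjoinRoot_eq_top`). By
`exists_denominator`, `exists_bound_ne_zero` and `mul_idealCount_le`, for all large primes `q` we have
`ℓ * idealCount K q ≤ idealCount K' q`: contradiction with `not_mul_le`. -/
theorem exists_nonresidue (K : Type*) [Field K] [NumberField K] {ℓ : ℕ} (hℓ : ℓ.Prime)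
    {ζ : 𝓞 K} (hζ : IsPrimitiveRoot ζ ℓ) {b : 𝓞 K} (hb : b ≠ 0) (hb' : ∀ x : K, x ^ ℓ ≠ b) (N : ℕ) :
    ∃ (q : ℕ) (_ : Fact q.Prime), N < q ∧ ∃ φ : 𝓞 K →+* ZMod q,
      φ b ≠ 0 ∧ ∀ y : ZMod q, y ^ ℓ ≠ φ b := by
  classical
  by_contra hcon
  have hall : ∀ (q : ℕ) [Fact q.Prime], N < q → ∀ φ : 𝓞 K →+* ZMod q, φ b ≠ 0 →
      ∃ y : ZMod q, y ^ ℓ = φ b := by
    intro q hq hN φ hφ
    by_contra hy
    push Not at hy
    exact hcon ⟨q, hq, hN, φ, hφ, hy⟩
  have hirr : Irreducible (X ^ ℓ - C (b : K)) := X_pow_sub_C_irreducible_of_prime hℓ hb'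
  have : Fact (Irreducible (X ^ ℓ - C (b : K))) := ⟨hirr⟩
  have hmonic : (X ^ ℓ - C (b : K)).Monic := monic_X_pow_sub_C (b : K) hℓ.ne_zero
  have : Module.Finite K (AdjoinRoot (X ^ ℓ - C (b : K))) := hmonic.finite_adjoinRoot
  have : NumberField (AdjoinRoot (X ^ ℓ - C (b : K))) :=
    NumberField.of_module_finite K (AdjoinRoot (X ^ ℓ - C (b : K)))
  have hroot : (AdjoinRoot.root (X ^ ℓ - C (b : K))) ^ ℓ =
      algebraMap K (AdjoinRoot (X ^ ℓ - C (b : K))) (b : K) := by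
    have h := AdjoinRoot.eval₂_root (X ^ ℓ - C (b : K))
    rw [eval₂_sub, eval₂_pow, eval₂_X, eval₂_C] at h
    exact sub_eq_zero.1 h
  have hint : IsIntegral ℤ (AdjoinRoot.root (X ^ ℓ - C (b : K))) := by
    apply IsIntegral.of_pow hℓ.pos
    rw [hroot]
    exact (RingOfIntegers.isIntegral_coe b).map (IsScalarTower.toAlgHom ℤ K _)
  let α : 𝓞 (AdjoinRoot (X ^ ℓ - C (b : K))) := ⟨AdjoinRoot.root (X ^ ℓ - C (b : K)), hint⟩
  have hαv : (α : AdjoinRoot (X ^ ℓ - C (b : K))) = AdjoinRoot.root (X ^ ℓ - C (b : K)) := rfl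
  have hαb : α ^ ℓ = algebraMap (𝓞 K) (𝓞 (AdjoinRoot (X ^ ℓ - C (b : K)))) b := by
    apply RingOfIntegers.ext
    exact hroot
  obtain ⟨M, hM0, hM⟩ := exists_denominator K (AdjoinRoot (X ^ ℓ - C (b : K))) (α := α)
    (by rw [hαv]; exact AdjoinRoot.adjoinRoot_eq_top)
  obtain ⟨N1, hN1⟩ := exists_bound_ne_zero K hb
  obtain ⟨q, hq, hqq, hlt⟩ := not_mul_le K (AdjoinRoot (X ^ ℓ - C (b : K))) hℓ.two_le
    (N + N1 + M + ℓ + 1)
  have : Fact q.Prime := ⟨hq⟩
  have hle : ℓ * idealCount K q ≤ idealCount (AdjoinRoot (X ^ ℓ - C (b : K))) q := by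
    refine mul_idealCount_le K (AdjoinRoot (X ^ ℓ - C (b : K))) hℓ hζ hαb hirr hM ?_ (by omega) ?_
    · intro hd
      have := Nat.le_of_dvd (Nat.pos_of_ne_zero hM0) hd
      omega
    · intro φ
      have h0 : φ b ≠ 0 := hN1 q (by omega) φ
      exact ⟨h0, hall q (by omega) φ h0⟩
  omega

end Pool.Agent.Lib.MP_89bcae_ag.Re
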