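import Mathlib
import Pool.Agent.Lib.MP_89bcae_ag.Re.N13

open NumberField Polynomial

namespace Pool.Agent.Lib.MP_89bcae_ag.Re

private def N15Mem (K : Type*) [Field K] [NumberField K] {q : ℕ} (φ : 𝓞 K →+* ZMod q) (x : K) :
    Prop :=
  ∃ a s : 𝓞 K, φ s ≠ 0 ∧ x * algebraMap (𝓞 K) K s = algebraMap (𝓞 K) K a

private theorem n15_bound (K : Type*) [Field K] [NumberField K] (z : K) :
    ∃ N : ℕ, ∀ (q : ℕ) [Fact q.Prime], N < q → ∀ φ : 𝓞 K →+* ZMod q,
      N15Mem K φ z ∧ (z ≠ 0 → N15Mem K φ z⁻¹) := by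
  obtain ⟨a, n, hn, rfl⟩ := IsFractionRing.div_surjective (A := 𝓞 K) z
  have hn0 : n ≠ 0 := nonZeroDivisors.ne_zero hn
  have hn0K : algebraMap (𝓞 K) K n ≠ 0 := by
    rw [Ne, map_eq_zero_iff _ (IsFractionRing.injective (𝓞 K) K)]
    exact hn0
  obtain ⟨N₁, hN₁⟩ := exists_bound_ne_zero K hn0
  by_cases ha : a = 0
  · subst ha
    refine ⟨N₁, fun q _ hq φ => ⟨⟨0, n, hN₁ q hq φ, ?_⟩, fun h => absurd ?_ h⟩⟩
    · simp
    · simp
  · obtain ⟨N₂, hN₂⟩ := exists_bound_ne_zero K ha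
    have haK : algebraMap (𝓞 K) K a ≠ 0 := by
      rw [Ne, map_eq_zero_iff _ (IsFractionRing.injective (𝓞 K) K)]
      exact ha
    refine ⟨max N₁ N₂, fun q _ hq φ => ⟨⟨a, n, hN₁ q ((le_max_left _ _).trans_lt hq) φ, ?_⟩,
      fun _ => ⟨n, a, hN₂ q ((le_max_right _ _).trans_lt hq) φ, ?_⟩⟩⟩
    · exact div_mul_cancel₀ _ hn0K
    · rw [inv_div]
      exact div_mul_cancel₀ _ haK

/-- Extension of a homomorphism to a larger subring of `K` containing given elements. Proof: let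
`A = {x : K | ∃ a s : 𝓞 K, φ s ≠ 0 ∧ x * s = a}`, a subring (the localization of `𝓞 K` at the kernel of
`φ`), and `Φ x = φ a / φ s` (well defined: `a s' = a' s` in `𝓞 K` if `x s = a`, `x s' = a'`, and `ZMod q`
is a field). For `z ∈ T` write `z = a / n` with `a ∈ 𝓞 K`, `n` a nonzero integer
(`IsLocalization`, `exists_integer_multiple`); `N` is such that for `q > N` no `φ` kills `n` and, if
`z ≠ 0`, `a` (`exists_bound_ne_zero`, for both). -/
theorem exists_subring (K : Type*) [Field K] [NumberField K] (T : Finset K) :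
    ∃ N : ℕ, ∀ (q : ℕ) [Fact q.Prime], N < q → ∀ φ : 𝓞 K →+* ZMod q,
      ∃ (A : Subring K) (Φ : A →+* ZMod q),
        (∀ x : 𝓞 K, ∃ h : (x : K) ∈ A, Φ ⟨x, h⟩ = φ x) ∧
        ∀ z ∈ T, z ∈ A ∧ (z ≠ 0 → z⁻¹ ∈ A) := by
  choose N hN using n15_bound K
  refine ⟨T.sup N, fun q _ hq φ => ?_⟩
  have hinj := IsFractionRing.injective (𝓞 K) K
  let A : Subring K :=
    { carrier := {x | N15Mem K φ x}
      mul_mem' := by
        rintro x y ⟨a, s, hs, hx⟩ ⟨b, t, ht, hy⟩
        refine ⟨a * b, s * t, ?_, ?_⟩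
        · rw [map_mul]; exact mul_ne_zero hs ht
        · rw [map_mul, map_mul, ← hx, ← hy]; ring
      one_mem' := ⟨1, 1, by rw [map_one]; exact one_ne_zero, by simp⟩
      add_mem' := by
        rintro x y ⟨a, s, hs, hx⟩ ⟨b, t, ht, hy⟩
        refine ⟨a * t + b * s, s * t, ?_, ?_⟩
        · rw [map_mul]; exact mul_ne_zero hs ht
        · rw [map_mul, map_add, map_mul, map_mul, ← hx, ← hy]; ring
      zero_mem' := ⟨0, 1, by rw [map_one]; exact one_ne_zero, by simp⟩
      neg_mem' := by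
        rintro x ⟨a, s, hs, hx⟩
        refine ⟨-a, s, hs, ?_⟩
        rw [map_neg, ← hx]; ring }
  have hA : ∀ x : A, ∃ a s : 𝓞 K, φ s ≠ 0 ∧ (x : K) * algebraMap (𝓞 K) K s = algebraMap (𝓞 K) K a :=
    fun x => x.2
  choose a s hs hx using hA
  have val : ∀ (x : A) (b t : 𝓞 K), φ t ≠ 0 →
      (x : K) * algebraMap (𝓞 K) K t = algebraMap (𝓞 K) K b → φ (a x) / φ (s x) = φ b / φ t := by
    intro x b t ht h
    rw [div_eq_div_iff (hs x) ht, ← map_mul, ← map_mul]
    congr 1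
    apply hinj
    rw [map_mul, map_mul, ← hx x, ← h]
    ring
  refine ⟨A, { toFun := fun x => φ (a x) / φ (s x)
               map_one' := ?_
               map_mul' := ?_
               map_zero' := ?_
               map_add' := ?_ }, ?_, ?_⟩
  · rw [val 1 1 1 (by rw [map_one]; exact one_ne_zero) (by simp)]
    simp
  · intro x y
    show φ (a (x * y)) / φ (s (x * y)) = φ (a x) / φ (s x) * (φ (a y) / φ (s y))
    rw [val (x * y) (a x * a y) (s x * s y) (by rw [map_mul]; exact mul_ne_zero (hs x) (hs y))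
      (by rw [map_mul, map_mul, ← hx x, ← hx y, Subring.coe_mul]; ring)]
    rw [map_mul, map_mul, div_mul_div_comm]
  · rw [val 0 0 1 (by rw [map_one]; exact one_ne_zero) (by simp)]
    simp
  · intro x y
    show φ (a (x + y)) / φ (s (x + y)) = φ (a x) / φ (s x) + (φ (a y) / φ (s y))
    rw [val (x + y) (a x * s y + s x * a y) (s x * s y)
      (by rw [map_mul]; exact mul_ne_zero (hs x) (hs y))
      (by rw [map_mul, map_add, map_mul, map_mul, ← hx x, ← hx y, Subring.coe_add]; ring)]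
    rw [map_mul, map_add, map_mul, map_mul, div_add_div _ _ (hs x) (hs y)]
  · intro x
    refine ⟨⟨x, 1, by rw [map_one]; exact one_ne_zero, by simp⟩, ?_⟩
    show φ (a _) / φ (s _) = φ x
    rw [val _ x 1 (by rw [map_one]; exact one_ne_zero) (by simp)]
    simp
  · intro z hz
    exact hN z q ((Finset.le_sup hz).trans_lt hq) φ

end Pool.Agent.Lib.MP_89bcae_ag.Re
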