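import Mathlib

namespace Pool.Agent.Lib.MP_89bcae_ag.Re

/-- Powers in a prime field. Proof: the group of units of `ZMod q` is cyclic of order `q - 1`, divisible
by `ℓ` (the order of `ζ`); `a` is an `ℓ`-th power iff `a ^ ((q - 1) / ℓ) = 1`. In detail: let `u` be a
generator (`IsCyclic (ZMod q)ˣ`), `a = u ^ i`; `a ^ ((q-1)/ℓ)` is an `ℓ`-th root of unity, so it is
`ζ ^ j` with `j < ℓ` (`IsPrimitiveRoot.eq_pow_of_pow_eq_one`); if `j = 0` then `q - 1` divides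
`i (q-1)/ℓ`, so `ℓ ∣ i` and `a` is an `ℓ`-th power. -/
theorem exists_symbol {ℓ q : ℕ} (hℓ : ℓ.Prime) [Fact q.Prime] {ζ : ZMod q}
    (hζ : IsPrimitiveRoot ζ ℓ) {a : ZMod q} (ha : a ≠ 0) (hpow : ∀ y : ZMod q, y ^ ℓ ≠ a) :
    ℓ ∣ q - 1 ∧ ∃ i : ZMod ℓ, i ≠ 0 ∧ a ^ ((q - 1) / ℓ) = ζ ^ i.val := by
  have hζ0 : ζ ≠ 0 := hζ.ne_zero hℓ.ne_zero
  have hdvd : ℓ ∣ q - 1 := by
    rw [hζ.eq_orderOf]
    exact ZMod.orderOf_dvd_card_sub_one hζ0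
  refine ⟨hdvd, ?_⟩
  obtain ⟨m, hm⟩ := hdvd
  have hq1 : 0 < q - 1 := by
    have := (Fact.out : q.Prime).two_le
    omega
  have hm0 : 0 < m := by
    rcases Nat.eq_zero_or_pos m with h | h
    · rw [h, mul_zero] at hm
      omega
    · exact h
  have hdiv : (q - 1) / ℓ = m := by
    rw [hm]
    exact Nat.mul_div_cancel_left m hℓ.pos
  rw [hdiv]
  have hNe : NeZero ℓ := ⟨hℓ.ne_zero⟩
  have h1 : (a ^ m) ^ ℓ = 1 := by
    rw [← pow_mul, mul_comm m ℓ, ← hm]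
    exact ZMod.pow_card_sub_one_eq_one ha
  obtain ⟨j, hj, hj'⟩ := hζ.eq_pow_of_pow_eq_one h1
  refine ⟨(j : ZMod ℓ), ?_, ?_⟩
  · intro h0
    rw [ZMod.natCast_eq_zero_iff] at h0
    have hj0 : j = 0 := Nat.eq_zero_of_dvd_of_lt h0 hj
    rw [hj0, pow_zero] at hj'
    obtain ⟨u, hu⟩ := IsCyclic.exists_generator (α := (ZMod q)ˣ)
    obtain ⟨i, hi⟩ := (Submonoid.mem_powers_iff _ _).1 ((mem_powers_iff_mem_zpowers).2 (hu (Units.mk0 a ha)))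
    have hord : orderOf u = q - 1 := by
      rw [orderOf_eq_card_of_forall_mem_zpowers hu, Nat.card_eq_fintype_card, ZMod.card_units]
    have h2 : u ^ (i * m) = 1 := by
      rw [pow_mul, hi]
      ext
      rw [Units.val_pow_eq_pow_val, Units.val_mk0, Units.val_one]
      exact hj'.symm
    have h3 : ℓ * m ∣ i * m := by
      rw [← hm, ← hord]
      exact orderOf_dvd_of_pow_eq_one h2
    obtain ⟨n, hn⟩ := Nat.dvd_of_mul_dvd_mul_right hm0 h3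
    refine hpow ((u ^ n : (ZMod q)ˣ) : ZMod q) ?_
    have h4 : (u ^ n) ^ ℓ = Units.mk0 a ha := by
      rw [← hi, hn, mul_comm ℓ n, pow_mul]
    rw [← Units.val_pow_eq_pow_val, h4, Units.val_mk0]
  · rw [ZMod.val_natCast, Nat.mod_eq_of_lt hj, hj']

/-- Proof: `(w ^ ℓ) ^ ((q - 1) / ℓ) = w ^ (q - 1) = 1` and
`(ζ ^ i.val) ^ j = ζ ^ (i * j : ZMod ℓ).val` (`ζ ^ ℓ = 1`, `ZMod.val_mul`, `pow_mod_orderOf`...). -/
theorem symbol_of_pow_mul {ℓ q : ℕ} (hℓ : ℓ.Prime) [Fact q.Prime] {ζ : ZMod q}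
    (hζ : IsPrimitiveRoot ζ ℓ) (hdvd : ℓ ∣ q - 1) {w a z : ZMod q} {j : ℕ} (hw : w ≠ 0)
    (h : w ^ ℓ * a ^ j = z) {i : ZMod ℓ} (hi : a ^ ((q - 1) / ℓ) = ζ ^ i.val) :
    z ^ ((q - 1) / ℓ) = ζ ^ (i * j : ZMod ℓ).val := by
  have hNe : NeZero ℓ := ⟨hℓ.ne_zero⟩
  obtain ⟨m, hm⟩ := hdvd
  have hdiv : (q - 1) / ℓ = m := by
    rw [hm]
    exact Nat.mul_div_cancel_left m hℓ.pos
  rw [hdiv] at hi ⊢
  have h1 : w ^ (ℓ * m) = 1 := by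
    rw [← hm]
    exact ZMod.pow_card_sub_one_eq_one hw
  have h2 : ∀ n : ℕ, ζ ^ (n % ℓ) = ζ ^ n := by
    intro n
    conv_rhs => rw [← Nat.div_add_mod n ℓ, pow_add, pow_mul, hζ.pow_eq_one, one_pow, one_mul]
  rw [← h, mul_pow, ← pow_mul, h1, one_mul, ← pow_mul, mul_comm j m, pow_mul, hi, ← pow_mul,
    ZMod.val_mul, ZMod.val_natCast, Nat.mul_mod_mod, h2]

end Pool.Agent.Lib.MP_89bcae_ag.Re
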