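import Mathlib
import Pool.Agent.Lib.MP_89bcae_ag.Re.N14
import Pool.Agent.Lib.MP_89bcae_ag.Re.N15
import Pool.Agent.Lib.MP_89bcae_ag.Re.N16

open NumberField Polynomial

namespace Pool.Agent.Lib.MP_89bcae_ag.Re

/-- **A prime with given Kummer symbols, up to a scalar.** Proof: let `E` be the field of
`exists_field` (with `z₀ ∈ T`, `kap z₀ ≠ 0`), a number field. Some `n ≠ 0` in `ℕ` is such that
`b = n ^ ℓ z₀` is in `𝓞 E`; it is not an `ℓ`-th power in `E`. `exists_nonresidue` for `E` (with `ζ` in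
`𝓞 E`) and a large bound gives `q` and `φ : 𝓞 E →+* ZMod q` with `φ b ≠ 0` not an `ℓ`-th power.
`exists_subring` for `E` and the set of the images of `T`, of `ζ`, of `n` and of the `w_z` (all nonzero)
gives `A' ≤ E` and `Φ'`. Let `A` be the inverse image of `A'` in `K` (`Subring.comap`) and `Φ` the
composite. `Φ z₀` is not an `ℓ`-th power, because `Φ' b = (Φ' n) ^ ℓ * Φ z₀` is not; by `exists_symbol`
(`isPrimitiveRoot_map` for `φ ζ`) `(Φ z₀) ^ ((q-1)/ℓ) = (Φ ζ) ^ i.val` with `i ≠ 0`. For `z ∈ T`,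
`w_z ^ ℓ z₀ ^ j = z`, so by `symbol_of_pow_mul` the symbol of `Φ z` is `i * j` and
`kap z = j * kap z₀`: take `c = i / kap z₀`. -/
theorem exists_reduction {ℓ : ℕ} (hℓ : ℓ.Prime) (K F : Type) [Field K] [NumberField K] [Field F]
    [Algebra K F] [IsAlgClosure K F] {ζ : K} (hζ : IsPrimitiveRoot ζ ℓ) (U : F ≃ₐ[K] F)
    (T : Finset K)
    (hT : ∃ z ∈ T, z ≠ 0 ∧ Sup.kap ℓ (algebraMap K F ζ) U (algebraMap K F z) ≠ 0) (N : ℕ) :
    ∃ (q : ℕ) (_ : Fact q.Prime) (A : Subring K) (Φ : A →+* ZMod q) (c : ZMod ℓ) (hζA : ζ ∈ A),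
      N < q ∧ ℓ ∣ q - 1 ∧ c ≠ 0 ∧ IsPrimitiveRoot (Φ ⟨ζ, hζA⟩) ℓ ∧
      ∀ z ∈ T, ∃ hz : z ∈ A, z ≠ 0 → Φ ⟨z, hz⟩ ≠ 0 ∧ (Φ ⟨z, hz⟩) ^ ((q - 1) / ℓ) =
        (Φ ⟨ζ, hζA⟩) ^ (c * Sup.kap ℓ (algebraMap K F ζ) U (algebraMap K F z)).val := by
  obtain ⟨z₀, hz₀T, hz₀, hk₀⟩ := hT
  obtain ⟨E, hfin, hw, hy⟩ := exists_field hℓ K F hζ U T hz₀ hk₀
  have : FiniteDimensional K E := hfin
  have : NumberField E := NumberField.of_module_finite K E
  have : NeZero ℓ := ⟨hℓ.ne_zero⟩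
  have : Fact ℓ.Prime := ⟨hℓ⟩
  set kz : K → ZMod ℓ := fun z => Sup.kap ℓ (algebraMap K F ζ) U (algebraMap K F z) with hkz
  choose! w j hw0 hwz hwk using hw
  set e₀ : E := algebraMap K E z₀ with he₀
  have he₀' : e₀ ≠ 0 := by
    rw [he₀]
    exact (map_ne_zero (algebraMap K E)).2 hz₀
  -- an integral multiple of `z₀`
  obtain ⟨n, hn, hint⟩ : ∃ n : ℕ, n ≠ 0 ∧ IsIntegral ℤ ((n : E) ^ ℓ * e₀) := by
    obtain ⟨y, hy0, hyi⟩ := ((IsFractionRing.isAlgebraic_iff ℤ ℚ E).2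
      (Algebra.IsAlgebraic.isAlgebraic e₀)).exists_integral_multiple
    refine ⟨y.natAbs, Int.natAbs_ne_zero.2 hy0, ?_⟩
    have h1 : IsIntegral ℤ ((y.natAbs : E) * e₀) := by
      rw [zsmul_eq_mul] at hyi
      rcases Int.natAbs_eq y with h | h
      · have h2 : (y : E) = (y.natAbs : E) := by
          conv_lhs => rw [h]
          rw [Int.cast_natCast]
        rw [← h2]; exact hyi
      · have h2 : (y : E) = -(y.natAbs : E) := by
          conv_lhs => rw [h]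
          rw [Int.cast_neg, Int.cast_natCast]
        have h3 : (y.natAbs : E) * e₀ = -((y : E) * e₀) := by rw [h2]; ring
        rw [h3]; exact hyi.neg
    have h4 : (y.natAbs : E) ^ ℓ * e₀ = (y.natAbs : E) ^ (ℓ - 1) * ((y.natAbs : E) * e₀) := by
      rw [← mul_assoc, ← pow_succ, Nat.sub_add_cancel hℓ.one_le]
    rw [h4]
    refine IsIntegral.mul (IsIntegral.pow ?_ _) h1
    exact isIntegral_algebraMap (R := ℤ) (A := E) (x := (y.natAbs : ℤ)) |> fun h => by simpa using h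
  have hn' : (n : E) ≠ 0 := Nat.cast_ne_zero.2 hn
  let b : 𝓞 E := ⟨(n : E) ^ ℓ * e₀, hint⟩
  have hbE : (b : E) = (n : E) ^ ℓ * e₀ := rfl
  have hb : b ≠ 0 := by
    intro h
    have h1 : (b : E) = 0 := by rw [h]; rfl
    rw [hbE] at h1
    exact mul_ne_zero (pow_ne_zero _ hn') he₀' h1
  have hb' : ∀ x : E, x ^ ℓ ≠ b := by
    intro x hx
    apply hy (x / n)
    rw [hbE] at hx
    rw [div_pow, hx, mul_div_cancel_left₀ _ (pow_ne_zero _ hn')]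
  have hζ' : IsPrimitiveRoot (algebraMap K E ζ) ℓ :=
    hζ.map_of_injective (algebraMap K E).injective
  set ζE : 𝓞 E := hζ'.toInteger with hζE
  have hζEp : IsPrimitiveRoot ζE ℓ := hζ'.toInteger_isPrimitiveRoot
  have hζEE : (ζE : E) = algebraMap K E ζ := hζ'.coe_toInteger
  -- the finite set
  classical
  let T' : Finset E := T.image (algebraMap K E) ∪ T.image w ∪ {(n : E)}
  obtain ⟨N₁, hN₁⟩ := exists_subring E T'
  obtain ⟨q, hqp, hq, φ, hφb, hφb'⟩ :=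
    exists_nonresidue E hℓ hζEp hb hb' (max N (max N₁ ℓ))
  have : Fact q.Prime := hqp
  have hqN : N < q := lt_of_le_of_lt (le_max_left _ _) hq
  have hqN₁ : N₁ < q := lt_of_le_of_lt ((le_max_left _ _).trans (le_max_right _ _)) hq
  have hqℓ : ℓ < q := lt_of_le_of_lt ((le_max_right _ _).trans (le_max_right _ _)) hq
  obtain ⟨A', Φ', hA', hT'⟩ := hN₁ q hqN₁ φ
  have hne : ∀ x ∈ T', x ≠ 0 → ∀ hx : x ∈ A', Φ' ⟨x, hx⟩ ≠ 0 := by
    intro x hx hx0 hxA h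
    have hi := (hT' x hx).2 hx0
    have h1 : (⟨x, hxA⟩ : A') * ⟨x⁻¹, hi⟩ = 1 := Subtype.ext (mul_inv_cancel₀ hx0)
    have h2 := congrArg Φ' h1
    rw [map_mul, h, zero_mul, map_one] at h2
    exact zero_ne_one h2
  have hmemT : ∀ z ∈ T, algebraMap K E z ∈ T' := fun z hz =>
    Finset.mem_union_left _ (Finset.mem_union_left _ (Finset.mem_image_of_mem _ hz))
  have hmemw : ∀ z ∈ T, w z ∈ T' := fun z hz =>
    Finset.mem_union_left _ (Finset.mem_union_right _ (Finset.mem_image_of_mem _ hz))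
  have hmemn : (n : E) ∈ T' := Finset.mem_union_right _ (Finset.mem_singleton_self _)
  have hnA : (n : E) ∈ A' := (hT' _ hmemn).1
  have hz₀A : e₀ ∈ A' := (hT' _ (hmemT z₀ hz₀T)).1
  obtain ⟨hζA', hζΦ⟩ := hA' ζE
  obtain ⟨hbA', hbΦ⟩ := hA' b
  have hbval : φ b = (Φ' ⟨n, hnA⟩) ^ ℓ * Φ' ⟨e₀, hz₀A⟩ := by
    rw [← hbΦ, ← map_pow, ← map_mul]
    congr 1
  have hpow : ∀ y : ZMod q, y ^ ℓ ≠ Φ' ⟨e₀, hz₀A⟩ := by
    intro y hyy
    apply hφb' (Φ' ⟨n, hnA⟩ * y)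
    rw [hbval, mul_pow, hyy]
  have hζφ : IsPrimitiveRoot (φ ζE) ℓ := isPrimitiveRoot_map hℓ hζEp hqℓ φ
  obtain ⟨hdvd, i, hi0, hi⟩ := exists_symbol hℓ hζφ
    (hne e₀ (hmemT z₀ hz₀T) he₀' hz₀A) hpow
  have hζA : algebraMap K E ζ ∈ A' := hζEE ▸ hζA'
  let A : Subring K := A'.comap (algebraMap K E)
  let g : A →+* A' := (algebraMap K E).restrict A A' (fun x hx => hx)
  have hΦζ : Φ' ⟨algebraMap K E ζ, hζA⟩ = φ ζE := by
    have h1 : (⟨algebraMap K E ζ, hζA⟩ : A') = ⟨(ζE : E), hζA'⟩ := Subtype.ext hζEE.symm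
    rw [h1, hζΦ]
  refine ⟨q, hqp, A, Φ'.comp g, i / kz z₀, hζA, hqN, hdvd, div_ne_zero hi0 hk₀, ?_, ?_⟩
  · show IsPrimitiveRoot (Φ' ⟨algebraMap K E ζ, hζA⟩) ℓ
    rw [hΦζ]; exact hζφ
  · intro z hz
    have hzA : algebraMap K E z ∈ A' := (hT' _ (hmemT z hz)).1
    refine ⟨hzA, fun hz0 => ⟨?_, ?_⟩⟩
    · exact hne _ (hmemT z hz) ((map_ne_zero (algebraMap K E)).2 hz0) hzA
    · show (Φ' ⟨algebraMap K E z, hzA⟩) ^ ((q - 1) / ℓ) =
        (Φ' ⟨algebraMap K E ζ, hζA⟩) ^ (i / kz z₀ * kz z).val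
      have hwA : w z ∈ A' := (hT' _ (hmemw z hz)).1
      have h1 : (Φ' ⟨w z, hwA⟩) ^ ℓ * (Φ' ⟨e₀, hz₀A⟩) ^ (j z) = Φ' ⟨algebraMap K E z, hzA⟩ := by
        rw [← map_pow, ← map_pow, ← map_mul]
        congr 1
        exact Subtype.ext (hwz z hz hz0)
      have h2 := symbol_of_pow_mul hℓ hζφ hdvd (hne _ (hmemw z hz) (hw0 z hz hz0) hwA) h1 hi
      have h3 : i / kz z₀ * kz z = i * (j z : ZMod ℓ) := by
        have h4 : kz z = j z * kz z₀ := hwk z hz hz0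
        have h5 : kz z₀ ≠ 0 := hk₀
        rw [h4]
        field_simp
      rw [h2, hΦζ, h3]

end Pool.Agent.Lib.MP_89bcae_ag.Re
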